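import Mathlib

set_option autoImplicit false

open MvPolynomial

namespace Pool.Agent.Q157.FL

variable {m : ℕ}

/-- bound for the value of a polynomial -/
theorem norm_eval_le (f : MvPolynomial (Fin m) ℂ) :
    ∃ C : ℝ, 0 ≤ C ∧ ∀ (x : Fin m → ℂ) (U : ℝ), 1 ≤ U → (∀ i, ‖x i‖ ≤ U) →
      ‖eval x f‖ ≤ C * U ^ f.totalDegree := by
  refine ⟨∑ d ∈ f.support, ‖coeff d f‖, Finset.sum_nonneg fun _ _ => norm_nonneg _, ?_⟩
  intro x U hU hx
  rw [eval_eq, Finset.sum_mul]
  refine (norm_sum_le _ _).trans (Finset.sum_le_sum fun d hd => ?_)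
  rw [norm_mul]
  refine mul_le_mul_of_nonneg_left ?_ (norm_nonneg _)
  rw [norm_prod]
  calc ∏ i ∈ d.support, ‖x i ^ d i‖ ≤ ∏ i ∈ d.support, U ^ d i := by
        refine Finset.prod_le_prod (fun _ _ => norm_nonneg _) fun i _ => ?_
        rw [norm_pow]
        exact pow_le_pow_left₀ (norm_nonneg _) (hx i) _
    _ = U ^ (∑ i ∈ d.support, d i) := Finset.prod_pow_eq_pow_sum _ _ _
    _ ≤ U ^ f.totalDegree := pow_le_pow_right₀ hU (le_totalDegree hd)

/-- the polynomial ring is a finite module over the ring generated by the `p k` -/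
theorem finite_adjoin {q : ℕ} (hq : 0 < q) (p : Fin m → MvPolynomial (Fin m) ℂ)
    (h : Fin m → Fin m → MvPolynomial (Fin m) ℂ) (r : Fin m → MvPolynomial (Fin m) ℂ)
    (hrel : ∀ i, (X i : MvPolynomial (Fin m) ℂ) ^ q = ∑ k, p k * h i k + r i)
    (hh : ∀ i k, (h i k).totalDegree < q) (hr : ∀ i, (r i).totalDegree < q) :
    Module.Finite (Algebra.adjoin ℂ (Set.range p)) (MvPolynomial (Fin m) ℂ) := by
  classical
  set A := Algebra.adjoin ℂ (Set.range p) with hA
  let g : (Fin m → Fin q) → MvPolynomial (Fin m) ℂ := fun α =>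
    monomial (Finsupp.equivFunOnFinite.symm fun i => (α i : ℕ)) 1
  set S : Submodule A (MvPolynomial (Fin m) ℂ) := Submodule.span A (Set.range g) with hS
  have key : ∀ n : ℕ, ∀ f : MvPolynomial (Fin m) ℂ, f.totalDegree < n → f ∈ S := by
    intro n
    induction n with
    | zero => intro f hf; exact absurd hf (Nat.not_lt_zero _)
    | succ n ih =>
      intro f hf
      rw [f.as_sum]
      refine Submodule.sum_mem _ fun d hd => ?_
      have hdn : (d.sum fun _ e => e) < n + 1 := lt_of_le_of_lt (le_totalDegree hd) hf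
      have e1 : monomial d (coeff d f) =
          (algebraMap ℂ A (coeff d f)) • (monomial d (1:ℂ)) := by
        rw [Algebra.smul_def]
        have : algebraMap A (MvPolynomial (Fin m) ℂ) (algebraMap ℂ A (coeff d f)) =
          C (coeff d f) := rfl
        rw [this, C_mul_monomial, mul_one]
      rw [e1]
      refine Submodule.smul_mem _ _ ?_
      by_cases hall : ∀ i, d i < q
      · refine Submodule.subset_span ⟨fun i => ⟨d i, hall i⟩, ?_⟩
        simp only [g]
        congr 1
        ext i
        simp
      · push Not at hall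
        obtain ⟨i, hi⟩ := hall
        obtain ⟨d', rfl⟩ : ∃ d' : Fin m →₀ ℕ, d = d' + Finsupp.single i q := by
          refine ⟨d - Finsupp.single i q, ?_⟩
          rw [tsub_add_cancel_of_le]
          intro j
          by_cases hj : i = j
          · subst hj; simpa using hi
          · simp [Finsupp.single_apply, hj]
        have hdeg : (d' + Finsupp.single i q).sum (fun _ e => e) = d'.sum (fun _ e => e) + q := by
          rw [Finsupp.sum_add_index' (fun _ => rfl) (fun _ _ _ => rfl), Finsupp.sum_single_index rfl]
        rw [hdeg] at hdn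
        have hmd : (monomial d' (1:ℂ)).totalDegree = d'.sum fun _ e => e := by
          rw [totalDegree_monomial _ one_ne_zero]
        have e2 : monomial (d' + Finsupp.single i q) (1:ℂ) =
            ∑ k, (⟨p k, Algebra.subset_adjoin ⟨k, rfl⟩⟩ : A) • (monomial d' (1:ℂ) * h i k) +
              monomial d' (1:ℂ) * r i := by
          have : monomial (d' + Finsupp.single i q) (1:ℂ) = monomial d' 1 * X i ^ q := by
            rw [X_pow_eq_monomial, monomial_mul, one_mul]
          rw [this, hrel i, mul_add, Finset.mul_sum]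
          congr 1
          refine Finset.sum_congr rfl fun k _ => ?_
          rw [Algebra.smul_def]
          show _ = p k * _
          ring
        rw [e2]
        refine Submodule.add_mem _ (Submodule.sum_mem _ fun k _ => Submodule.smul_mem _ _ ?_) ?_
        · apply ih
          have := totalDegree_mul (monomial d' (1:ℂ)) (h i k)
          have := hh i k
          omega
        · apply ih
          have := totalDegree_mul (monomial d' (1:ℂ)) (r i)
          have := hr i
          omega
  refine ⟨⟨Finset.univ.image g, ?_⟩⟩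
  rw [eq_top_iff]
  intro f _
  have := key (f.totalDegree + 1) f (Nat.lt_succ_self _)
  rw [Finset.coe_image, Finset.coe_univ, Set.image_univ]
  exact this

/-- the `p k` are algebraically independent -/
theorem alg_indep (p : Fin m → MvPolynomial (Fin m) ℂ)
    (hfin : Module.Finite (Algebra.adjoin ℂ (Set.range p)) (MvPolynomial (Fin m) ℂ)) :
    AlgebraicIndependent ℂ p := by
  have : Algebra.IsIntegral (Algebra.adjoin ℂ (Set.range p)) (MvPolynomial (Fin m) ℂ) :=
    Algebra.IsIntegral.of_finite _ _
  have : Algebra.IsAlgebraic (Algebra.adjoin ℂ (Set.range p)) (MvPolynomial (Fin m) ℂ) :=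
    inferInstance
  refine (Algebra.IsAlgebraic.isTranscendenceBasis_of_le_trdeg_of_finite ℂ p ?_).1
  rw [MvPolynomial.trdeg_of_isDomain]
  simp

end Pool.Agent.Q157.FL
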