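import Mathlib
import Pool.Agent.Q157.FL.Alg

set_option autoImplicit false

open MvPolynomial

namespace Pool.Agent.Q157.FL

variable {m : ℕ}

theorem lift_max {B R : Type*} [CommRing B] [CommRing R] [Algebra B R] [Algebra.IsIntegral B R]
    (hinj : Function.Injective (algebraMap B R)) (φ : B →+* ℂ) (hs : Function.Surjective φ) :
    ∃ Q : Ideal R, Q.IsMaximal ∧ ∀ a, φ a = 0 → algebraMap B R a ∈ Q := by
  have hmax : (RingHom.ker φ).IsMaximal := RingHom.ker_isMaximal_of_surjective φ hs
  obtain ⟨Q, hQ, hQc⟩ := Ideal.exists_ideal_over_maximal_of_isIntegral (S := R)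
    (RingHom.ker φ) (by
      have : RingHom.ker (algebraMap B R) = ⊥ := (RingHom.injective_iff_ker_eq_bot _).1 hinj
      rw [this]; exact bot_le)
  refine ⟨Q, hQ, fun a ha => ?_⟩
  have h1 : a ∈ Q.comap (algebraMap B R) := by
    rw [hQc]; exact ha
  exact h1

/-- A polynomial equation for the `i`-th coordinate over the ring generated by the `p k`, all of
whose roots at every point `b` are values of the coordinate on the fibre over `b`. -/
theorem lift_root (p : Fin m → MvPolynomial (Fin m) ℂ)
    (hfin : Module.Finite (Algebra.adjoin ℂ (Set.range p)) (MvPolynomial (Fin m) ℂ))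
    (i : Fin m) :
    ∃ P : Polynomial (MvPolynomial (Fin m) ℂ), P.Monic ∧ P.natDegree ≠ 0 ∧
      (∀ x : Fin m → ℂ, (P.map (eval fun k => eval x (p k))).IsRoot (x i)) ∧
      ∀ (b : Fin m → ℂ) (t : ℂ), (P.map (eval b)).IsRoot t →
        ∃ x : Fin m → ℂ, (∀ k, eval x (p k) = b k) ∧ x i = t := by
  classical
  set A := Algebra.adjoin ℂ (Set.range p) with hA
  have hind : AlgebraicIndependent ℂ p := alg_indep p hfin
  let e : MvPolynomial (Fin m) ℂ ≃ₐ[ℂ] A := hind.aevalEquiv
  have he : ∀ f, ((e f : A) : MvPolynomial (Fin m) ℂ) = aeval p f := fun f =>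
    hind.algebraMap_aevalEquiv f
  have hcl : IsIntegrallyClosed A := IsIntegrallyClosed.of_equiv e.toRingEquiv
  have hint : Algebra.IsIntegral A (MvPolynomial (Fin m) ℂ) := Algebra.IsIntegral.of_finite _ _
  have hx : IsIntegral A (X i : MvPolynomial (Fin m) ℂ) := Algebra.IsIntegral.isIntegral _
  set P0 : Polynomial A := minpoly A (X i : MvPolynomial (Fin m) ℂ) with hP0
  have hmon : P0.Monic := minpoly.monic hx
  refine ⟨P0.map (e.symm : A →+* MvPolynomial (Fin m) ℂ), hmon.map _, ?_, ?_, ?_⟩
  · rw [hmon.natDegree_map]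
    exact (minpoly.natDegree_pos hx).ne'
  · intro x
    rw [Polynomial.map_map]
    have hc : ((eval fun k => eval x (p k)).comp (e.symm : A →+* MvPolynomial (Fin m) ℂ)) =
        (eval x).comp (algebraMap A (MvPolynomial (Fin m) ℂ)) := by
      ext a
      obtain ⟨f, rfl⟩ := e.surjective a
      simp only [RingHom.comp_apply]
      have h1 : (e.symm : A →+* MvPolynomial (Fin m) ℂ) (e f) = f := e.symm_apply_apply f
      have h2 : algebraMap A (MvPolynomial (Fin m) ℂ) (e f) = aeval p f := he f
      rw [h1, h2]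
      have h3 : (eval x).comp (aeval p : MvPolynomial (Fin m) ℂ →ₐ[ℂ] MvPolynomial (Fin m) ℂ).toRingHom
          = eval fun k => eval x (p k) := by
        apply MvPolynomial.ringHom_ext
        · intro r; simp
        · intro k; simp
      rw [← h3]
      rfl
    rw [hc, ← Polynomial.map_map, Polynomial.IsRoot.def]
    have h4 : (Polynomial.map (algebraMap A (MvPolynomial (Fin m) ℂ)) P0).eval (X i) = 0 := by
      rw [Polynomial.eval_map_algebraMap]
      exact minpoly.aeval _ _
    have h5 := congrArg (eval x) h4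
    rw [map_zero, ← Polynomial.eval₂_hom, ← Polynomial.eval_map, eval_X] at h5
    exact h5
  · intro b t ht
    set ε : A →+* ℂ := (eval b).comp (e.symm : A →+* MvPolynomial (Fin m) ℂ) with hε
    have hεe : ∀ f, ε (e f) = eval b f := by
      intro f
      simp only [hε, RingHom.comp_apply]
      have h1 : (e.symm : A →+* MvPolynomial (Fin m) ℂ) (e f) = f := e.symm_apply_apply f
      rw [h1]
    have ht' : P0.eval₂ ε t = 0 := by
      rw [Polynomial.map_map, Polynomial.IsRoot.def, Polynomial.eval_map] at ht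
      exact ht
    let B := Algebra.adjoin A ({X i} : Set (MvPolynomial (Fin m) ℂ))
    let E : AdjoinRoot P0 ≃ₐ[A] B := minpoly.equivAdjoin hx
    let φ : B →+* ℂ := (AdjoinRoot.lift ε t ht').comp (E.symm : B →+* AdjoinRoot P0)
    have hφA : ∀ a : A, φ (algebraMap A B a) = ε a := by
      intro a
      simp only [φ, RingHom.comp_apply]
      have h1 : (E.symm : B →+* AdjoinRoot P0) (algebraMap A B a) = algebraMap A _ a :=
        E.symm.commutes a
      rw [h1, AdjoinRoot.algebraMap_eq, AdjoinRoot.lift_of]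
    have hXB : (X i : MvPolynomial (Fin m) ℂ) ∈ B := Algebra.subset_adjoin rfl
    have hφX : φ ⟨X i, hXB⟩ = t := by
      simp only [φ, RingHom.comp_apply]
      have h1 : (E.symm : B →+* AdjoinRoot P0) ⟨X i, hXB⟩ = AdjoinRoot.root P0 := by
        apply E.injective
        have h2 : E ((E.symm : B →+* AdjoinRoot P0) ⟨X i, hXB⟩) = ⟨X i, hXB⟩ :=
          E.apply_symm_apply _
        rw [h2]
        apply Subtype.ext
        show X i = ((minpoly.equivAdjoin hx (AdjoinRoot.root P0) : B) : MvPolynomial (Fin m) ℂ)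
        rw [minpoly.coe_equivAdjoin]
        erw [AdjoinRoot.liftAlgHom_root]
      rw [h1, AdjoinRoot.lift_root]
    have hsurj : Function.Surjective φ := by
      intro c
      refine ⟨algebraMap A B (e (C c)), ?_⟩
      rw [hφA, hεe, eval_C]
    have hBint : Algebra.IsIntegral B (MvPolynomial (Fin m) ℂ) := Algebra.IsIntegral.tower_top A
    obtain ⟨Q, hQ, hQc⟩ := @lift_max B (MvPolynomial (Fin m) ℂ) _ _ _ hBint Subtype.val_injective φ hsurj
    obtain ⟨x, hxQ⟩ := isMaximal_iff_eq_vanishingIdeal_singleton.1 hQ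
    have hmem : ∀ a : B, φ a = 0 → eval x (a : MvPolynomial (Fin m) ℂ) = 0 := by
      intro a ha
      have h2 : (a : MvPolynomial (Fin m) ℂ) ∈ Q := hQc a ha
      rw [hxQ, mem_vanishingIdeal_singleton_iff] at h2
      exact h2
    refine ⟨x, fun k => ?_, ?_⟩
    · have h1 := hmem (algebraMap A B (e (X k - C (b k)))) (by rw [hφA, hεe]; simp)
      have h2 : ((algebraMap A B (e (X k - C (b k))) : B) : MvPolynomial (Fin m) ℂ) =
          aeval p (X k - C (b k)) := he _
      rw [h2] at h1
      simpa [sub_eq_zero] using h1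
    · have h1 := hmem (⟨X i, hXB⟩ + algebraMap A B (e (C (-t)))) (by
        rw [map_add, hφX, hφA, hεe, eval_C, add_neg_cancel])
      have h2 : ((⟨X i, hXB⟩ + algebraMap A B (e (C (-t))) : B) : MvPolynomial (Fin m) ℂ) =
          X i + aeval p (C (-t)) := by
        rw [← he (C (-t))]; rfl
      rw [h2] at h1
      have h3 : x i + -t = 0 := by simpa using h1
      linear_combination h3

end Pool.Agent.Q157.FL
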