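import Mathlib
import Pool.Agent.Q157.FL.Root

set_option autoImplicit false

open MvPolynomial

namespace Pool.Agent.Q157.FL

/-- a polynomial that is small near `0` and does not grow fast is zero -/
theorem poly_zero (A : Polynomial ℂ) {M j : ℕ} (hM : 2 < M) (hj : 0 < j) {K κ : ℝ} (hκ : 0 < κ)
    (h1 : ∀ c : ℂ, ‖A.eval c‖ ^ M ≤ K * (1 + ‖c‖) ^ j)
    (h2 : ∀ c : ℂ, ‖c‖ ≤ κ → ‖A.eval c‖ ^ 2 ≤ K * ‖c‖ ^ j) : A = 0 := by
  by_contra hA
  obtain ⟨B, hB, hnd⟩ := Polynomial.exists_eq_pow_rootMultiplicity_mul_and_not_dvd A hA 0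
  set o := A.rootMultiplicity 0 with ho
  rw [Polynomial.C_0, sub_zero] at hB hnd
  have hB0 : B.eval 0 ≠ 0 := by
    intro h
    apply hnd
    rw [Polynomial.X_dvd_iff, Polynomial.coeff_zero_eq_eval_zero]
    exact h
  have hBne : B ≠ 0 := by rintro rfl; simp at hB0
  have hev : ∀ c : ℂ, ‖A.eval c‖ = ‖c‖ ^ o * ‖B.eval c‖ := by
    intro c
    rw [hB]; simp
  -- near zero
  have hlow : j ≤ 2 * o := by
    by_contra hlt
    push Not at hlt
    have hpos : 0 < j - 2 * o := by omega
    have ht : Filter.Tendsto (fun t : ℝ => K * t ^ (j - 2 * o)) (nhdsWithin 0 (Set.Ioi 0))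
        (nhds 0) := by
      have : Filter.Tendsto (fun t : ℝ => K * t ^ (j - 2 * o)) (nhds 0) (nhds (K * 0 ^ (j - 2 * o))) :=
        (Continuous.tendsto (by fun_prop) 0)
      rw [zero_pow hpos.ne', mul_zero] at this
      exact this.mono_left nhdsWithin_le_nhds
    have ht2 : Filter.Tendsto (fun t : ℝ => ‖B.eval (t : ℂ)‖ ^ 2) (nhdsWithin 0 (Set.Ioi 0))
        (nhds (‖B.eval 0‖ ^ 2)) := by
      have hc : Continuous fun t : ℝ => ‖B.eval (t : ℂ)‖ ^ 2 := by
        have := B.continuous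
        fun_prop
      have := hc.tendsto 0
      simp only [Complex.ofReal_zero] at this
      exact this.mono_left nhdsWithin_le_nhds
    have hle : ‖B.eval 0‖ ^ 2 ≤ 0 := by
      refine le_of_tendsto_of_tendsto ht2 ht ?_
      have : Set.Ioc (0:ℝ) κ ∈ nhdsWithin (0:ℝ) (Set.Ioi 0) := Ioc_mem_nhdsGT hκ
      filter_upwards [this] with t ht
      have h3 := h2 (t : ℂ) (by simpa [abs_of_pos ht.1] using ht.2)
      rw [hev, Complex.norm_real, Real.norm_eq_abs, abs_of_pos ht.1, mul_pow, ← pow_mul] at h3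
      have h4 : t ^ j = t ^ (o * 2) * t ^ (j - 2 * o) := by
        rw [← pow_add]; congr 1; omega
      rw [h4] at h3
      have h5 : (0:ℝ) < t ^ (o * 2) := pow_pos ht.1 _
      have h6 : t ^ (o * 2) * ‖B.eval (t:ℂ)‖ ^ 2 ≤ t ^ (o * 2) * (K * t ^ (j - 2 * o)) := by
        linarith
      exact le_of_mul_le_mul_left h6 h5
    have : 0 < ‖B.eval 0‖ ^ 2 := by positivity
    linarith
  -- at infinity
  have hhigh : M * o ≤ j := by
    by_contra hlt
    push Not at hlt
    obtain ⟨δ, hδ, hlarge⟩ : ∃ δ : ℝ, 0 < δ ∧ ∀ᶠ t : ℝ in Filter.atTop, δ ≤ ‖B.eval (t : ℂ)‖ := by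
      by_cases hd : 0 < B.degree
      · refine ⟨1, one_pos, ?_⟩
        have h3 : Filter.Tendsto (fun t : ℝ => ‖B.eval (t : ℂ)‖) Filter.atTop Filter.atTop := by
          have h4 := Polynomial.tendsto_norm_atTop B hd
            (l := Filter.atTop) (z := fun t : ℝ => (t : ℂ)) (by
              have : (fun t : ℝ => ‖(t:ℂ)‖) = fun t => |t| := by
                ext t; rw [Complex.norm_real, Real.norm_eq_abs]
              rw [this]
              exact Filter.tendsto_abs_atTop_atTop)
          exact h4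
        exact h3.eventually_ge_atTop 1
      · have h3 : B.degree ≤ 0 := not_lt.1 hd
        have h4 := Polynomial.eq_C_of_degree_le_zero h3
        refine ⟨‖B.eval 0‖, norm_pos_iff.2 hB0, Filter.Eventually.of_forall fun t => ?_⟩
        rw [h4]; simp
    have hbd : ∀ᶠ t : ℝ in Filter.atTop, t ^ (M * o - j) ≤ K * 2 ^ j / δ ^ M := by
      filter_upwards [hlarge, Filter.eventually_ge_atTop 1] with t ht ht1
      have h3 := h1 (t : ℂ)
      have ht0 : 0 < t := by linarith
      rw [hev, Complex.norm_real, Real.norm_eq_abs, abs_of_pos ht0, mul_pow, ← pow_mul] at h3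
      have hK : 0 ≤ K := by
        by_contra hK
        push Not at hK
        have : K * (1 + t) ^ j < 0 := mul_neg_of_neg_of_pos hK (by positivity)
        have h5 : 0 ≤ t ^ (o * M) * ‖B.eval (t:ℂ)‖ ^ M := by positivity
        linarith
      have h4 : t ^ (o * M) = t ^ j * t ^ (M * o - j) := by
        rw [← pow_add]; congr 1
        rw [mul_comm o M]
        omega
      have h5 : (1 + t) ^ j ≤ (2 * t) ^ j := pow_le_pow_left₀ (by positivity) (by linarith) _
      have h6 : δ ^ M ≤ ‖B.eval (t:ℂ)‖ ^ M := pow_le_pow_left₀ hδ.le ht _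
      have h7 : t ^ j * (t ^ (M * o - j) * δ ^ M) ≤ t ^ j * (K * 2 ^ j) := by
        calc t ^ j * (t ^ (M * o - j) * δ ^ M) = t ^ (o * M) * δ ^ M := by rw [h4]; ring
          _ ≤ t ^ (o * M) * ‖B.eval (t:ℂ)‖ ^ M := by gcongr
          _ ≤ K * (1 + t) ^ j := h3
          _ ≤ K * (2 * t) ^ j := by gcongr
          _ = t ^ j * (K * 2 ^ j) := by rw [mul_pow]; ring
      have h8 := le_of_mul_le_mul_left h7 (pow_pos ht0 j)
      rw [le_div_iff₀ (pow_pos hδ M)]
      exact h8
    have hinf : Filter.Tendsto (fun t : ℝ => t ^ (M * o - j)) Filter.atTop Filter.atTop :=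
      Filter.tendsto_pow_atTop (by omega)
    obtain ⟨t, ht1, ht2⟩ := (hbd.and (hinf.eventually_gt_atTop (K * 2 ^ j / δ ^ M))).exists
    linarith
  have : M * o ≤ 2 * o := hhigh.trans hlow
  have h3 : o = 0 := by
    by_contra h
    have : 0 < o := Nat.pos_of_ne_zero h
    nlinarith
  omega

variable {m : ℕ}

/-- growth of the fibres over the last coordinate axis -/
theorem growth (hm : 1 ≤ m) {q : ℕ} (p : Fin m → MvPolynomial (Fin m) ℂ)
    (h : Fin m → Fin m → MvPolynomial (Fin m) ℂ) (r : Fin m → MvPolynomial (Fin m) ℂ)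
    (hrel : ∀ i, (X i : MvPolynomial (Fin m) ℂ) ^ q = ∑ k, p k * h i k + r i)
    (hr : ∀ i, (r i).totalDegree < q) (l : Fin m)
    (hlast : ∀ i, (h i l).totalDegree + 2 * m ≤ q) :
    ∃ K : ℝ, 0 ≤ K ∧ ∀ (c : ℂ) (x : Fin m → ℂ), (∀ k, eval x (p k) = if k = l then c else 0) →
      ∀ i, ‖x i‖ ^ (2 * m) ≤ K * (1 + ‖c‖) := by
  classical
  choose Ch hCh0 hCh using fun i => norm_eval_le (h i l)
  choose Cr hCr0 hCr using fun i => norm_eval_le (r i)
  set H := ∑ i, Ch i with hH
  set R := ∑ i, Cr i with hR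
  have hH0 : 0 ≤ H := Finset.sum_nonneg fun i _ => hCh0 i
  have hR0 : 0 ≤ R := Finset.sum_nonneg fun i _ => hCr0 i
  refine ⟨1 + (2 * R) ^ (2 * m) + 2 * H, by positivity, ?_⟩
  intro c x hx i
  have : Nonempty (Fin m) := ⟨l⟩
  obtain ⟨i0, hi0⟩ := Finite.exists_max fun i => ‖x i‖
  have hc0 : 0 ≤ ‖c‖ := norm_nonneg c
  have hpR : 0 ≤ (2 * R) ^ (2 * m) := by positivity
  refine (pow_le_pow_left₀ (norm_nonneg _) (hi0 i) _).trans ?_
  rcases le_or_gt ‖x i0‖ 1 with hle | hgt
  · have h1 : ‖x i0‖ ^ (2 * m) ≤ 1 := pow_le_one₀ (norm_nonneg _) hle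
    nlinarith [mul_nonneg hH0 hc0, mul_nonneg hpR hc0]
  · set U := ‖x i0‖ with hU
    have hU0 : 0 < U := by linarith
    have e1 : x i0 ^ q = c * eval x (h i0 l) + eval x (r i0) := by
      have h1 := congrArg (eval x) (hrel i0)
      simp only [map_pow, eval_X, map_add, map_sum, map_mul, hx, ite_mul, zero_mul,
        Finset.sum_ite_eq', Finset.mem_univ, if_true] at h1
      exact h1
    have e2 : U ^ q ≤ ‖c‖ * (H * U ^ (q - 2 * m)) + R * U ^ (q - 1) := by
      have h1 : ‖x i0 ^ q‖ ≤ ‖c‖ * ‖eval x (h i0 l)‖ + ‖eval x (r i0)‖ := by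
        rw [e1, ← norm_mul]; exact norm_add_le _ _
      rw [norm_pow] at h1
      have h2 := hCh i0 x U hgt.le (fun i => hi0 i)
      have h3 := hCr i0 x U hgt.le (fun i => hi0 i)
      have h4 : U ^ (h i0 l).totalDegree ≤ U ^ (q - 2 * m) :=
        pow_le_pow_right₀ hgt.le (by have := hlast i0; omega)
      have h5 : U ^ (r i0).totalDegree ≤ U ^ (q - 1) :=
        pow_le_pow_right₀ hgt.le (by have := hr i0; omega)
      have h6 : Ch i0 ≤ H := Finset.single_le_sum (fun i _ => hCh0 i) (Finset.mem_univ i0)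
      have h7 : Cr i0 ≤ R := Finset.single_le_sum (fun i _ => hCr0 i) (Finset.mem_univ i0)
      calc U ^ q ≤ ‖c‖ * ‖eval x (h i0 l)‖ + ‖eval x (r i0)‖ := h1
        _ ≤ ‖c‖ * (H * U ^ (q - 2 * m)) + R * U ^ (q - 1) := by
            refine add_le_add (mul_le_mul_of_nonneg_left (h2.trans ?_) hc0) (h3.trans ?_)
            · exact mul_le_mul h6 h4 (by positivity) hH0
            · exact mul_le_mul h7 h5 (by positivity) hR0
    have hq2 : 2 * m ≤ q := by have := hlast i0; omega
    have e3 : U ^ (2 * m) ≤ ‖c‖ * H + R * U ^ (2 * m - 1) := by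
      have h1 : U ^ q = U ^ (q - 2 * m) * U ^ (2 * m) := by
        rw [← pow_add]; congr 1; omega
      have h2 : U ^ (q - 1) = U ^ (q - 2 * m) * U ^ (2 * m - 1) := by
        rw [← pow_add]; congr 1; omega
      rw [h1, h2] at e2
      have h3 : U ^ (q - 2 * m) * U ^ (2 * m) ≤
          U ^ (q - 2 * m) * (‖c‖ * H + R * U ^ (2 * m - 1)) := by linarith
      exact le_of_mul_le_mul_left h3 (by positivity)
    have e4 : U ^ (2 * m) = U * U ^ (2 * m - 1) := by
      rw [← pow_succ']; congr 1; omega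
    have hUm : 0 < U ^ (2 * m - 1) := by positivity
    rcases le_or_gt U (2 * R) with h1 | h1
    · have h2 : U ^ (2 * m) ≤ (2 * R) ^ (2 * m) := pow_le_pow_left₀ hU0.le h1 _
      nlinarith [mul_nonneg hH0 hc0, mul_nonneg hpR hc0]
    · have h2 : R * U ^ (2 * m - 1) ≤ U ^ (2 * m) / 2 := by
        rw [e4]
        nlinarith
      nlinarith [mul_nonneg hH0 hc0, mul_nonneg hpR hc0]

/-- **the algebraic part of the argument** -/
theorem core (hm : 2 ≤ m) {q : ℕ} (p : Fin m → MvPolynomial (Fin m) ℂ)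
    (h : Fin m → Fin m → MvPolynomial (Fin m) ℂ) (r : Fin m → MvPolynomial (Fin m) ℂ)
    (hrel : ∀ i, (X i : MvPolynomial (Fin m) ℂ) ^ q = ∑ k, p k * h i k + r i)
    (hh : ∀ i k, (h i k).totalDegree < q) (hr : ∀ i, (r i).totalDegree < q) (l : Fin m)
    (hlast : ∀ i, (h i l).totalDegree + 2 * m ≤ q)
    {K κ : ℝ} (hK : 0 ≤ K) (hκ : 0 < κ)
    (hz : ∀ (c : ℂ) (x : Fin m → ℂ), ‖c‖ ≤ κ → (∀ k, eval x (p k) = if k = l then c else 0) →
      ∀ i, ‖x i‖ ^ 2 ≤ K * ‖c‖)
    (h0 : eval 0 (p l) = 0) : False := by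
  classical
  have hq : 0 < q := by have := hlast l; omega
  have hfin := finite_adjoin hq p h r hrel hh hr
  obtain ⟨K1, hK1, hgr⟩ := growth (by omega) p h r hrel hr l hlast
  choose P hPm hPd hP1 hP2 using lift_root p hfin
  let b : ℂ → Fin m → ℂ := fun c k => if k = l then c else 0
  have hpow : ∀ (i : Fin m) (c : ℂ), (P i).map (eval (b c)) = Polynomial.X ^ (P i).natDegree := by
    intro i
    -- all lower coefficients vanish
    have hco : ∀ n, n < (P i).natDegree → ∀ c, eval (b c) ((P i).coeff n) = 0 := by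
      intro n hn
      set A : Polynomial ℂ := MvPolynomial.eval₂ Polynomial.C
        (fun k => if k = l then Polynomial.X else 0) ((P i).coeff n) with hA
      have hAe : ∀ c, A.eval c = eval (b c) ((P i).coeff n) := by
        intro c
        have : (Polynomial.evalRingHom c).comp (MvPolynomial.eval₂Hom Polynomial.C
            (fun k : Fin m => if k = l then (Polynomial.X : Polynomial ℂ) else 0)) =
            eval (b c) := by
          apply MvPolynomial.ringHom_ext
          · intro r; simp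
          · intro k
            simp only [RingHom.comp_apply, eval₂Hom_X', Polynomial.coe_evalRingHom, eval_X, b]
            split_ifs <;> simp
        exact congrArg (fun f => f ((P i).coeff n)) this
      have hj : 0 < (P i).natDegree - n := by omega
      set j := (P i).natDegree - n with hjdef
      set G : ℝ := ((P i).natDegree.choose n : ℝ) with hG
      have hG0 : 0 ≤ G := by positivity
      have hcb : ∀ (c : ℂ) (B : ℝ), (∀ t : ℂ, ((P i).map (eval (b c))).IsRoot t → ‖t‖ ≤ B) →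
          ‖A.eval c‖ ≤ B ^ j * G := by
        intro c B hB
        have h1 := Polynomial.coeff_le_of_roots_le (p := P i) (f := eval (b c)) (B := B) n (hPm i)
          (IsAlgClosed.splits _) (fun z hz => hB z (Polynomial.isRoot_of_mem_roots hz))
        rw [Polynomial.coeff_map, ← hAe] at h1
        exact h1
      have hA0 : A = 0 := by
        refine poly_zero A (M := 2 * m) (j := j) (K := K1 ^ j * G ^ (2 * m) + K ^ j * G ^ 2) (κ := κ)
          (by omega) hj hκ ?_ ?_
        · intro c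
          have hc0 : 0 ≤ ‖c‖ := norm_nonneg c
          have hbase : 0 ≤ K1 * (1 + ‖c‖) := by positivity
          have h1 := hcb c ((K1 * (1 + ‖c‖)) ^ (1 / (2 * m : ℝ))) (by
            intro t ht
            obtain ⟨x, hx1, hx2⟩ := hP2 i (b c) t ht
            have h2 := hgr c x hx1 i
            rw [hx2] at h2
            have h3 : ‖t‖ = (‖t‖ ^ (2 * m)) ^ (1 / (2 * m : ℝ)) := by
              rw [← Real.rpow_natCast, ← Real.rpow_mul (norm_nonneg _)]
              have : ((2 * m : ℕ) : ℝ) * (1 / (2 * m : ℝ)) = 1 := by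
                push_cast
                have : (m:ℝ) ≠ 0 := by positivity
                field_simp
              rw [this, Real.rpow_one]
            rw [h3]
            exact Real.rpow_le_rpow (by positivity) h2 (by positivity))
          have h4 : ((K1 * (1 + ‖c‖)) ^ (1 / (2 * m : ℝ))) ^ (2 * m) = K1 * (1 + ‖c‖) := by
            rw [← Real.rpow_natCast, ← Real.rpow_mul hbase]
            have : (1 / (2 * m : ℝ)) * ((2 * m : ℕ) : ℝ) = 1 := by
              push_cast
              have : (m:ℝ) ≠ 0 := by positivity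
              field_simp
            rw [this, Real.rpow_one]
          calc ‖A.eval c‖ ^ (2 * m) ≤ (((K1 * (1 + ‖c‖)) ^ (1 / (2 * m : ℝ))) ^ j * G) ^ (2 * m) :=
                pow_le_pow_left₀ (norm_nonneg _) h1 _
            _ = (((K1 * (1 + ‖c‖)) ^ (1 / (2 * m : ℝ))) ^ (2 * m)) ^ j * G ^ (2 * m) := by
                rw [mul_pow]; ring
            _ = K1 ^ j * G ^ (2 * m) * (1 + ‖c‖) ^ j := by rw [h4, mul_pow]; ring
            _ ≤ (K1 ^ j * G ^ (2 * m) + K ^ j * G ^ 2) * (1 + ‖c‖) ^ j := by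
                have : 0 ≤ K ^ j * G ^ 2 * (1 + ‖c‖) ^ j := by positivity
                nlinarith
        · intro c hc
          have hc0 : 0 ≤ ‖c‖ := norm_nonneg c
          have h1 := hcb c (Real.sqrt (K * ‖c‖)) (by
            intro t ht
            obtain ⟨x, hx1, hx2⟩ := hP2 i (b c) t ht
            have h2 := hz c x hc hx1 i
            rw [hx2] at h2
            exact Real.le_sqrt_of_sq_le h2)
          calc ‖A.eval c‖ ^ 2 ≤ ((Real.sqrt (K * ‖c‖)) ^ j * G) ^ 2 :=
                pow_le_pow_left₀ (norm_nonneg _) h1 _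
            _ = ((Real.sqrt (K * ‖c‖)) ^ 2) ^ j * G ^ 2 := by rw [mul_pow]; ring
            _ = K ^ j * G ^ 2 * ‖c‖ ^ j := by
                rw [Real.sq_sqrt (by positivity), mul_pow]; ring
            _ ≤ (K1 ^ j * G ^ (2 * m) + K ^ j * G ^ 2) * ‖c‖ ^ j := by
                have : 0 ≤ K1 ^ j * G ^ (2 * m) * ‖c‖ ^ j := by positivity
                nlinarith
      intro c
      rw [← hAe, hA0, Polynomial.eval_zero]
    intro c
    ext n
    rw [Polynomial.coeff_map, Polynomial.coeff_X_pow]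
    rcases lt_trichotomy n (P i).natDegree with h1 | h1 | h1
    · rw [hco n h1 c, if_neg h1.ne]
    · rw [if_pos h1, h1, (hPm i).coeff_natDegree, map_one]
    · rw [if_neg h1.ne', Polynomial.coeff_eq_zero_of_natDegree_lt h1, map_zero]
  obtain ⟨x, hx, -⟩ := hP2 l (b 1) 0 (by
    rw [hpow l 1, Polynomial.IsRoot.def]
    simp [hPd l])
  have hx0 : x = 0 := by
    funext i
    have h1 := hP1 i x
    have h2 : (fun k => eval x (p k)) = b 1 := funext hx
    rw [h2, hpow i 1, Polynomial.IsRoot.def, Polynomial.eval_pow, Polynomial.eval_X] at h1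
    exact eq_zero_of_pow_eq_zero h1
  have h3 := hx l
  rw [hx0, h0] at h3
  simp [b] at h3

end Pool.Agent.Q157.FL
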