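import Mathlib

set_option autoImplicit false

open Matrix

namespace Pool.Agent.Q157.FL

/-- `d` on the diagonal, `-1` beside it, `-w` and `-z` in the corners -/
def NM {T : Type*} [CommRing T] (q : ℕ) (d : Fin q → T) (z w : T) : Matrix (Fin q) (Fin q) T :=
  Matrix.of fun j k => (if j = k then d j else 0) - (if (k : ℕ) = j + 1 then 1 else 0) -
    (if (j : ℕ) = k + 1 then 1 else 0) - (if (j : ℕ) = 0 ∧ (k : ℕ) + 1 = q then w else 0) -
    (if (k : ℕ) = 0 ∧ (j : ℕ) + 1 = q then z else 0)

variable {T : Type*} [CommRing T]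

lemma NM_apply (q : ℕ) (d : Fin q → T) (z w : T) (j k : Fin q) :
    NM q d z w j k = (if j = k then d j else 0) - (if (k : ℕ) = j + 1 then 1 else 0) -
    (if (j : ℕ) = k + 1 then 1 else 0) - (if (j : ℕ) = 0 ∧ (k : ℕ) + 1 = q then w else 0) -
    (if (k : ℕ) = 0 ∧ (j : ℕ) + 1 = q then z else 0) := rfl

lemma NM_split (q : ℕ) (d : Fin q → T) (z w : T) (j k : Fin q) :
    NM q d z w j k = NM q d 0 0 j k - (if (j : ℕ) = 0 ∧ (k : ℕ) + 1 = q then w else 0) -
    (if (k : ℕ) = 0 ∧ (j : ℕ) + 1 = q then z else 0) := by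
  simp only [NM_apply, ite_self, sub_zero]

/-- the determinant depends on the corners in a simple way -/
theorem det_NM (n : ℕ) (hn : 2 ≤ n) (d : Fin (n + 1) → T) (z w : T) :
    det (NM (n + 1) d z w) = det (NM (n + 1) d 0 0) - w - z +
      z * w * det (((NM (n + 1) d 0 0).updateRow 0 (Pi.single (Fin.last n) 1)).updateRow
        (Fin.last n) (Pi.single 0 1)) := by
  have hl0 : (Fin.last n) ≠ 0 := by
    intro h
    have := congrArg Fin.val h
    simp at this
    omega
  set N := NM (n + 1) d 0 0 with hN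
  have h1 : NM (n + 1) d z w = (N.updateRow 0 (N 0 + (-w) • Pi.single (Fin.last n) 1)).updateRow
      (Fin.last n) (N (Fin.last n) + (-z) • Pi.single 0 1) := by
    ext j k
    rw [NM_split, updateRow_apply, updateRow_apply]
    by_cases hj : j = Fin.last n
    · subst hj
      have a4 : ¬ (((Fin.last n : Fin (n+1)) : ℕ) = 0 ∧ (k:ℕ) + 1 = n + 1) := by
        rintro ⟨h, -⟩; rw [Fin.val_last] at h; omega
      rw [if_pos rfl, if_neg a4, sub_zero]
      by_cases hk : k = 0
      · subst hk
        rw [if_pos (by simp)]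
        simp [hN, sub_eq_add_neg]
      · rw [if_neg (fun h => hk (Fin.ext h.1))]
        simp [hN, hk]
    · rw [if_neg hj]
      have hj' : (j : ℕ) ≠ n := fun h => hj (Fin.ext h)
      have a5 : ¬ ((k:ℕ) = 0 ∧ (j:ℕ) + 1 = n + 1) := fun h => hj' (by omega)
      rw [if_neg a5, sub_zero]
      by_cases hj0 : j = 0
      · subst hj0
        rw [if_pos rfl]
        by_cases hk : k = Fin.last n
        · subst hk
          rw [if_pos (by simp)]
          simp [hN, sub_eq_add_neg]
        · rw [if_neg (fun h => hk (Fin.ext (by rw [Fin.val_last]; omega)))]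
          simp [hN, hk]
      · rw [if_neg hj0]
        have hj0' : (j : ℕ) ≠ 0 := fun h => hj0 (Fin.ext h)
        rw [if_neg (fun h => hj0' h.1), sub_zero]
  have hr1 : ((N.updateRow 0 (N 0 + (-w) • Pi.single (Fin.last n) 1)).updateRow
      (Fin.last n) (N (Fin.last n))) = N.updateRow 0 (N 0 + (-w) • Pi.single (Fin.last n) 1) := by
    have : N (Fin.last n) = (N.updateRow 0 (N 0 + (-w) • Pi.single (Fin.last n) 1)) (Fin.last n) := by
      rw [updateRow_ne hl0]
    rw [this, updateRow_eq_self]
  have hswap : ∀ (a b : Fin (n+1) → T), ((N.updateRow 0 a).updateRow (Fin.last n) b) =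
      ((N.updateRow (Fin.last n) b).updateRow 0 a) := by
    intro a b
    exact updateRow_comm N hl0.symm a b
  have hA : det (N.updateRow 0 (Pi.single (Fin.last n) 1)) = 1 := by
    rw [← adjugate_apply, adjugate_fin_succ_eq_det_submatrix]
    have ht : (N.submatrix (Fin.succAbove 0) (Fin.succAbove (Fin.last n))).det = (-1) ^ n := by
      have hup : (N.submatrix (Fin.succAbove 0) (Fin.succAbove (Fin.last n))).BlockTriangular id := by
        intro i j hij
        simp only [id] at hij
        have hij' : (j : ℕ) < i := hij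
        simp only [submatrix_apply, hN, NM_apply, Fin.succAbove_zero, Fin.succAbove_last,
          Fin.val_succ, Fin.val_castSucc, Fin.ext_iff]
        rw [if_neg (by omega), if_neg (by omega), if_neg (by omega)]
        simp
      rw [det_of_isUpperTriangular hup]
      have : ∀ i : Fin n, N.submatrix (Fin.succAbove 0) (Fin.succAbove (Fin.last n)) i i = -1 := by
        intro i
        simp only [submatrix_apply, hN, NM_apply, Fin.succAbove_zero, Fin.succAbove_last,
          Fin.val_succ, Fin.val_castSucc, Fin.ext_iff]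
        rw [if_neg (by omega), if_neg (by omega), if_pos trivial]
        simp
      simp only [this, Finset.prod_const, Finset.card_univ, Fintype.card_fin]
    rw [ht]
    simp only [Fin.val_zero, Fin.val_last, zero_add]
    rw [← mul_pow]; simp
  have hB : det (N.updateRow (Fin.last n) (Pi.single 0 1)) = 1 := by
    rw [← adjugate_apply, adjugate_fin_succ_eq_det_submatrix]
    have ht : (N.submatrix (Fin.succAbove (Fin.last n)) (Fin.succAbove 0)).det = (-1) ^ n := by
      have hup : (N.submatrix (Fin.succAbove (Fin.last n)) (Fin.succAbove 0)).BlockTriangular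
          OrderDual.toDual := by
        intro i j hij
        have hij' : (i : ℕ) < j := hij
        simp only [submatrix_apply, hN, NM_apply, Fin.succAbove_zero, Fin.succAbove_last,
          Fin.val_succ, Fin.val_castSucc, Fin.ext_iff]
        rw [if_neg (by omega), if_neg (by omega), if_neg (by omega)]
        simp
      rw [det_of_isLowerTriangular _ hup]
      have : ∀ i : Fin n, N.submatrix (Fin.succAbove (Fin.last n)) (Fin.succAbove 0) i i = -1 := by
        intro i
        simp only [submatrix_apply, hN, NM_apply, Fin.succAbove_zero, Fin.succAbove_last,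
          Fin.val_succ, Fin.val_castSucc, Fin.ext_iff]
        rw [if_neg (by omega), if_pos trivial, if_neg (by omega)]
        simp
      simp only [this, Finset.prod_const, Finset.card_univ, Fintype.card_fin]
    rw [ht]
    simp only [Fin.val_zero, Fin.val_last, add_zero]
    rw [← mul_pow]; simp
  rw [h1, det_updateRow_add, det_updateRow_smul, hr1, det_updateRow_add, det_updateRow_smul, hA,
    hswap (N 0 + _), det_updateRow_add, det_updateRow_smul]
  have h2 : (N.updateRow (Fin.last n) (Pi.single 0 1)).updateRow 0 (N 0) =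
      N.updateRow (Fin.last n) (Pi.single 0 1) := by
    have : N 0 = (N.updateRow (Fin.last n) (Pi.single 0 1)) 0 := by
      rw [updateRow_ne hl0.symm]
    conv_lhs => rw [this]
    rw [updateRow_eq_self]
  rw [h2, hB, updateRow_eq_self, ← hswap]
  ring

/-- the difference of two determinants does not depend on the corner `z` -/
theorem det_indep {q : ℕ} (hq : 3 ≤ q) (d e : Fin q → T) {z w : T} (hzw : z * w = 1) :
    det (NM q d z w) - det (NM q e z w) = det (NM q d 1 1) - det (NM q e 1 1) := by
  obtain ⟨n, rfl⟩ : ∃ n, q = n + 1 := ⟨q - 1, by omega⟩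
  rw [det_NM n (by omega) d z w, det_NM n (by omega) e z w, det_NM n (by omega) d 1 1,
    det_NM n (by omega) e 1 1, hzw]
  ring

/-- reversal of the sites -/
theorem det_rev {q : ℕ} (d : Fin q → T) (z w : T) :
    det (NM q (fun j => d (Fin.rev j)) z w) = det (NM q d w z) := by
  have : NM q (fun j => d (Fin.rev j)) z w = (NM q d w z).submatrix Fin.revPerm Fin.revPerm := by
    ext j k
    simp only [NM_apply, submatrix_apply, Fin.revPerm_apply, Fin.val_rev, Fin.ext_iff]
    have hj := j.2
    have hk := k.2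
    have e1 : ((j:ℕ) = k) = (q - (j + 1) = q - (k + 1)) := by
      apply propext; omega
    have e2 : ((k:ℕ) = j + 1) = (q - (j + 1) = q - (k + 1) + 1) := by
      apply propext; omega
    have e3 : ((j:ℕ) = k + 1) = (q - (k + 1) = q - (j + 1) + 1) := by
      apply propext; omega
    have e4 : ((j:ℕ) = 0 ∧ (k:ℕ) + 1 = q) = (q - (k + 1) = 0 ∧ q - (j + 1) + 1 = q) := by
      apply propext; omega
    have e5 : ((k:ℕ) = 0 ∧ (j:ℕ) + 1 = q) = (q - (j + 1) = 0 ∧ q - (k + 1) + 1 = q) := by
      apply propext; omega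
    simp only [← e1, ← e2, ← e3, ← e4, ← e5]
    ring
  rw [this, det_submatrix_equiv_self]

/-- conjugation by the alternating signs -/
theorem det_sign {q : ℕ} (hq : 3 ≤ q) (d : Fin q → T) :
    det (NM q (fun j => -d j) 1 1) = (-1) ^ q * det (NM q d ((-1) ^ q) ((-1) ^ q)) := by
  set S : Matrix (Fin q) (Fin q) T := Matrix.diagonal fun j => (-1) ^ (j : ℕ) with hS
  have hSS : det S * det S = 1 := by
    rw [← det_mul, hS, diagonal_mul_diagonal]
    have : (fun i : Fin q => (-1 : T) ^ (i : ℕ) * (-1) ^ (i : ℕ)) = fun _ => 1 := by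
      ext i; rw [← mul_pow]; simp
    rw [this, diagonal_one, det_one]
  have key : NM q (fun j => -d j) 1 1 = -(S * NM q d ((-1) ^ q) ((-1) ^ q) * S) := by
    ext j k
    rw [neg_apply, hS, mul_diagonal, diagonal_mul]
    simp only [NM_apply, Fin.ext_iff]
    have hj := j.2
    have hk := k.2
    have hsq : ∀ a : ℕ, ((-1:T) ^ a) * (-1) ^ a = 1 := fun a => by rw [← mul_pow]; simp
    by_cases h1 : (j:ℕ) = k
    · have a2 : ¬ ((k:ℕ) = j + 1) := by omega
      have a3 : ¬ ((j:ℕ) = k + 1) := by omega
      have a4 : ¬ ((j:ℕ) = 0 ∧ (k:ℕ) + 1 = q) := by omega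
      have a5 : ¬ ((k:ℕ) = 0 ∧ (j:ℕ) + 1 = q) := by omega
      simp only [if_pos h1, if_neg a2, if_neg a3, if_neg a4, if_neg a5]
      rw [h1]
      linear_combination (d j) * (hsq k)
    by_cases h2 : (k:ℕ) = j + 1
    · have a3 : ¬ ((j:ℕ) = k + 1) := by omega
      have a4 : ¬ ((j:ℕ) = 0 ∧ (k:ℕ) + 1 = q) := by omega
      have a5 : ¬ ((k:ℕ) = 0 ∧ (j:ℕ) + 1 = q) := by omega
      have hp : (-1:T) ^ (k:ℕ) = -(-1) ^ (j:ℕ) := by rw [h2, pow_succ]; ring
      simp only [if_neg h1, if_pos h2, if_neg a3, if_neg a4, if_neg a5]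
      rw [hp]
      linear_combination (hsq j)
    by_cases h3 : (j:ℕ) = k + 1
    · have a4 : ¬ ((j:ℕ) = 0 ∧ (k:ℕ) + 1 = q) := by omega
      have a5 : ¬ ((k:ℕ) = 0 ∧ (j:ℕ) + 1 = q) := by omega
      have hp : (-1:T) ^ (j:ℕ) = -(-1) ^ (k:ℕ) := by rw [h3, pow_succ]; ring
      simp only [if_neg h1, if_neg h2, if_pos h3, if_neg a4, if_neg a5]
      rw [hp]
      linear_combination (hsq k)
    by_cases h4 : (j:ℕ) = 0 ∧ (k:ℕ) + 1 = q
    · have a5 : ¬ ((k:ℕ) = 0 ∧ (j:ℕ) + 1 = q) := by omega
      have hp : (-1:T) ^ q = -(-1) ^ (k:ℕ) := by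
        have : (-1:T) ^ q = (-1) ^ ((k:ℕ) + 1) := congrArg _ h4.2.symm
        rw [this, pow_succ]; ring
      simp only [if_neg h1, if_neg h2, if_neg h3, if_pos h4, if_neg a5]
      rw [hp, h4.1, pow_zero]
      linear_combination (hsq k)
    by_cases h5 : (k:ℕ) = 0 ∧ (j:ℕ) + 1 = q
    · have hp : (-1:T) ^ q = -(-1) ^ (j:ℕ) := by
        have : (-1:T) ^ q = (-1) ^ ((j:ℕ) + 1) := congrArg _ h5.2.symm
        rw [this, pow_succ]; ring
      simp only [if_neg h1, if_neg h2, if_neg h3, if_neg h4, if_pos h5]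
      rw [hp, h5.1, pow_zero]
      linear_combination (hsq j)
    · simp only [if_neg h1, if_neg h2, if_neg h3, if_neg h4, if_neg h5]
      ring
  rw [key, det_neg, det_mul, det_mul, Fintype.card_fin]
  linear_combination ((-1) ^ q * det (NM q d ((-1) ^ q) ((-1) ^ q))) * hSS

end Pool.Agent.Q157.FL
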