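import Mathlib
import Pool.Agent.Q157.FL.Mat

set_option autoImplicit false

open Matrix Finset

namespace Pool.Agent.Q157.FL

/-- a permutation moving only two points -/
lemma perm_two {n : ℕ} (σ : Equiv.Perm (Fin n)) {a b : Fin n} (hab : a ≠ b)
    (h : ∀ c, c ≠ a → c ≠ b → σ c = c) : σ = 1 ∨ σ = Equiv.swap a b := by
  by_cases ha : σ a = a
  · left
    have hb : σ b = b := by
      by_contra hne
      by_cases hc : σ b = a
      · exact hab (σ.injective (ha.trans hc.symm))
      · exact hne (σ.injective (h _ hc hne))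
    ext c
    by_cases h1 : c = a
    · subst h1; rw [ha]; rfl
    by_cases h2 : c = b
    · subst h2; rw [hb]; rfl
    rw [h c h1 h2]; rfl
  · right
    have hab' : σ a = b := by
      by_contra hne
      exact ha (σ.injective (h _ ha hne))
    have hba : σ b = a := by
      by_contra hne
      by_cases hc : σ b = b
      · exact hab (σ.injective (hab'.trans hc.symm))
      · exact hc (σ.injective (h _ hne hc))
    ext c
    by_cases h1 : c = a
    · subst h1; rw [hab', Equiv.swap_apply_left]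
    by_cases h2 : c = b
    · subst h2; rw [hba, Equiv.swap_apply_right]
    rw [h c h1 h2, Equiv.swap_apply_of_ne_of_ne h1 h2]

/-- the determinant near a diagonal matrix with exactly two vanishing entries -/
theorem det_two_zero {n : ℕ} (D : Fin n → ℂ) (E : Matrix (Fin n) (Fin n) ℂ) {a b : Fin n}
    (hab : a ≠ b) (ha : D a = 0) (hb : D b = 0) (hD : ∀ i, ‖D i‖ ≤ 4) {ε : ℝ} (hε0 : 0 ≤ ε)
    (hε1 : ε ≤ 1) (hE : ∀ i j, ‖E i j‖ ≤ ε) (hEd : ∀ i, E i i = 0) :
    (∏ i ∈ (univ.erase a).erase b, ‖D i‖) * (‖E a b‖ * ‖E b a‖) ≤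
      ‖det (diagonal D - E)‖ + (n.factorial * 5 ^ n : ℝ) * ε ^ 3 := by
  classical
  set M := diagonal D - E with hM
  have hMd : ∀ i, M i i = D i := fun i => by simp [hM, hEd]
  have hMo : ∀ i j, i ≠ j → M i j = -E i j := fun i j h => by simp [hM, h]
  have hM5 : ∀ i j, ‖M i j‖ ≤ 5 := by
    intro i j
    by_cases h : i = j
    · subst h; rw [hMd]; linarith [hD i]
    · rw [hMo i j h, norm_neg]; linarith [hE i j]
  have hMa : ∀ i, ‖M i a‖ ≤ ε := by
    intro i
    by_cases h : i = a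
    · subst h; rw [hMd, ha, norm_zero]; exact hε0
    · rw [hMo i a h, norm_neg]; exact hE _ _
  have hMb : ∀ i, ‖M i b‖ ≤ ε := by
    intro i
    by_cases h : i = b
    · subst h; rw [hMd, hb, norm_zero]; exact hε0
    · rw [hMo i b h, norm_neg]; exact hE _ _
  have hdet := det_apply' M
  set t : Equiv.Perm (Fin n) → ℂ := fun σ => (Equiv.Perm.sign σ : ℂ) * ∏ i, M (σ i) i with ht
  have hsum : det M = t (Equiv.swap a b) + ∑ σ ∈ univ.erase (Equiv.swap a b), t σ := by
    rw [hdet, ← Finset.add_sum_erase _ _ (Finset.mem_univ (Equiv.swap a b))]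
  have hmain : ‖t (Equiv.swap a b)‖ =
      (∏ i ∈ (univ.erase a).erase b, ‖D i‖) * (‖E a b‖ * ‖E b a‖) := by
    have hs : ‖((Equiv.Perm.sign (Equiv.swap a b) : ℤ) : ℂ)‖ = 1 := by
      rw [Equiv.Perm.sign_swap hab]; simp
    have hprod : ∏ i, M (Equiv.swap a b i) i =
        M b a * (M a b * ∏ i ∈ (univ.erase a).erase b, D i) := by
      rw [← Finset.mul_prod_erase _ _ (Finset.mem_univ a), Equiv.swap_apply_left]
      congr 1
      rw [← Finset.mul_prod_erase _ _ (Finset.mem_erase.2 ⟨hab.symm, Finset.mem_univ b⟩),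
        Equiv.swap_apply_right]
      congr 1
      refine Finset.prod_congr rfl fun i hi => ?_
      rw [Finset.mem_erase, Finset.mem_erase] at hi
      rw [Equiv.swap_apply_of_ne_of_ne hi.2.1 hi.1, hMd]
    rw [ht]
    simp only
    rw [norm_mul, hs, one_mul, hprod, hMo b a hab.symm, hMo a b hab, norm_mul, norm_mul, norm_neg,
      norm_neg, norm_prod]
    ring
  have hrest : ∀ σ ∈ univ.erase (Equiv.swap a b), ‖t σ‖ ≤ 5 ^ n * ε ^ 3 := by
    intro σ hσ
    rw [Finset.mem_erase] at hσ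
    have hsg : ‖((Equiv.Perm.sign σ : ℤ) : ℂ)‖ = 1 := by
      rcases Int.units_eq_one_or (Equiv.Perm.sign σ) with h | h <;> rw [h] <;> simp
    have htn : ‖t σ‖ = ∏ i, ‖M (σ i) i‖ := by
      rw [ht]; simp only
      rw [norm_mul, hsg, one_mul, norm_prod]
    rw [htn]
    by_cases h1 : σ = 1
    · have : ∏ i, ‖M (σ i) i‖ = 0 := by
        refine Finset.prod_eq_zero (Finset.mem_univ a) ?_
        rw [h1]
        show ‖M a a‖ = 0
        rw [hMd, ha, norm_zero]
      rw [this]; positivity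
    obtain ⟨c, hca, hcb, hcc⟩ : ∃ c, c ≠ a ∧ c ≠ b ∧ σ c ≠ c := by
      by_contra hcon
      push Not at hcon
      rcases perm_two σ hab hcon with h | h
      · exact h1 h
      · exact hσ.1 h
    have hcard : (({a, b, c} : Finset (Fin n))).card = 3 := by
      rw [Finset.card_insert_of_notMem, Finset.card_insert_of_notMem, Finset.card_singleton]
      · simpa using hcb.symm
      · simp only [Finset.mem_insert, Finset.mem_singleton, not_or]
        exact ⟨hab, hca.symm⟩
    rw [← Finset.prod_mul_prod_compl ({a, b, c} : Finset (Fin n))]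
    have e1 : ∏ i ∈ ({a, b, c} : Finset (Fin n)), ‖M (σ i) i‖ ≤ ε ^ 3 := by
      calc ∏ i ∈ ({a, b, c} : Finset (Fin n)), ‖M (σ i) i‖ ≤
            ∏ _i ∈ ({a, b, c} : Finset (Fin n)), ε := by
            refine Finset.prod_le_prod (fun _ _ => norm_nonneg _) fun i hi => ?_
            simp only [Finset.mem_insert, Finset.mem_singleton] at hi
            rcases hi with rfl | rfl | rfl
            · exact hMa _
            · exact hMb _
            · rw [hMo _ _ hcc, norm_neg]; exact hE _ _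
        _ = ε ^ 3 := by rw [Finset.prod_const, hcard]
    have e2 : ∏ i ∈ ({a, b, c} : Finset (Fin n))ᶜ, ‖M (σ i) i‖ ≤ 5 ^ n := by
      calc ∏ i ∈ ({a, b, c} : Finset (Fin n))ᶜ, ‖M (σ i) i‖ ≤
            ∏ _i ∈ ({a, b, c} : Finset (Fin n))ᶜ, (5:ℝ) :=
            Finset.prod_le_prod (fun _ _ => norm_nonneg _) fun i _ => hM5 _ _
        _ = 5 ^ (({a, b, c} : Finset (Fin n))ᶜ).card := by rw [Finset.prod_const]
        _ ≤ 5 ^ n := pow_le_pow_right₀ (by norm_num) (by
            have := Finset.card_le_univ (({a, b, c} : Finset (Fin n))ᶜ)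
            simpa using this)
    calc _ ≤ ε ^ 3 * 5 ^ n := mul_le_mul e1 e2 (Finset.prod_nonneg fun _ _ => norm_nonneg _)
            (by positivity)
      _ = 5 ^ n * ε ^ 3 := mul_comm _ _
  have hrs : ‖∑ σ ∈ univ.erase (Equiv.swap a b), t σ‖ ≤ (n.factorial * 5 ^ n : ℝ) * ε ^ 3 := by
    calc ‖∑ σ ∈ univ.erase (Equiv.swap a b), t σ‖ ≤
          ∑ σ ∈ univ.erase (Equiv.swap a b), ‖t σ‖ := norm_sum_le _ _
      _ ≤ ∑ _σ ∈ univ.erase (Equiv.swap a b), (5:ℝ) ^ n * ε ^ 3 := Finset.sum_le_sum hrest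
      _ = ((univ.erase (Equiv.swap a b)).card : ℝ) * (5 ^ n * ε ^ 3) := by
          rw [Finset.sum_const, nsmul_eq_mul]
      _ ≤ (n.factorial : ℝ) * (5 ^ n * ε ^ 3) := by
          refine mul_le_mul_of_nonneg_right ?_ (by positivity)
          have h1 : (univ.erase (Equiv.swap a b)).card ≤ (univ : Finset (Equiv.Perm (Fin n))).card :=
            Finset.card_le_card (Finset.erase_subset _ _)
          rw [Finset.card_univ, Fintype.card_perm, Fintype.card_fin] at h1
          exact_mod_cast h1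
      _ = (n.factorial * 5 ^ n : ℝ) * ε ^ 3 := by ring
  rw [← hmain]
  have h1 : t (Equiv.swap a b) = det M - ∑ σ ∈ univ.erase (Equiv.swap a b), t σ := by
    rw [hsum]; ring
  rw [h1]
  exact (norm_sub_le _ _).trans (add_le_add le_rfl hrs)

lemma sum_at {q : ℕ} (f : ℕ → ℂ) (c : ℕ) :
    ∑ k : Fin q, (if (k : ℕ) = c then f k else 0) = if c < q then f c else 0 := by
  by_cases h : c < q
  · rw [if_pos h, Finset.sum_eq_single ⟨c, h⟩]
    · simp
    · intro k _ hk
      rw [if_neg (fun h' => hk (Fin.ext h'))]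
    · intro h'; exact absurd (Finset.mem_univ _) h'
  · rw [if_neg h]
    refine Finset.sum_eq_zero fun k _ => ?_
    rw [if_neg (by have := k.2; omega)]

/-- action of the free matrix on an exponential -/
lemma row_sum {q : ℕ} (hq : 3 ≤ q) (d : Fin q → ℂ) {z t : ℂ} (hz : z * z = 1) (ht : t ≠ 0)
    (htq : t ^ q = z) (j : Fin q) :
    ∑ k : Fin q, NM q d z z j k * t ^ (k : ℕ) = (d j - (t + t⁻¹)) * t ^ (j : ℕ) := by
  have hj := j.2
  have e : ∀ k : Fin q, NM q d z z j k * t ^ (k : ℕ) =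
      (if (k : ℕ) = j then d j * t ^ (k : ℕ) else 0) - (if (k : ℕ) = j + 1 then t ^ (k : ℕ) else 0) -
      (if 1 ≤ (j : ℕ) then (if (k : ℕ) = j - 1 then t ^ (k : ℕ) else 0) else 0) -
      (if (j : ℕ) = 0 then (if (k : ℕ) = q - 1 then z * t ^ (k : ℕ) else 0) else 0) -
      (if (j : ℕ) + 1 = q then (if (k : ℕ) = 0 then z * t ^ (k : ℕ) else 0) else 0) := by
    intro k
    have hk := k.2
    rw [NM_apply, sub_mul, sub_mul, sub_mul, sub_mul]
    congr 1
    · congr 1
      · congr 1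
        · congr 1
          · by_cases h : j = k
            · rw [if_pos h, if_pos (by rw [h])]
            · rw [if_neg h, if_neg (fun h' => h (Fin.ext h'.symm)), zero_mul]
          · split_ifs <;> simp
        · by_cases h : (j : ℕ) = k + 1
          · rw [if_pos h, if_pos (by omega), if_pos (by omega), one_mul]
          · rw [if_neg h, zero_mul]
            by_cases h1 : 1 ≤ (j : ℕ)
            · rw [if_pos h1, if_neg (by omega)]
            · rw [if_neg h1]
      · by_cases h : (j : ℕ) = 0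
        · rw [if_pos h]
          by_cases h1 : (k : ℕ) + 1 = q
          · rw [if_pos ⟨h, h1⟩, if_pos (by omega)]
          · rw [if_neg (fun h' => h1 h'.2), if_neg (by omega), zero_mul]
        · rw [if_neg h, if_neg (fun h' => h h'.1), zero_mul]
    · by_cases h : (j : ℕ) + 1 = q
      · rw [if_pos h]
        by_cases h1 : (k : ℕ) = 0
        · rw [if_pos ⟨h1, h⟩, if_pos h1]
        · rw [if_neg (fun h' => h1 h'.1), if_neg h1, zero_mul]
      · rw [if_neg h, if_neg (fun h' => h h'.2), zero_mul]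
  rw [Finset.sum_congr rfl fun k _ => e k]
  simp only [Finset.sum_sub_distrib]
  have s1 := sum_at (q := q) (fun k => d j * t ^ k) j
  have s2 := sum_at (q := q) (fun k => t ^ k) (j + 1)
  have s3 := sum_at (q := q) (fun k => t ^ k) (j - 1)
  have s4 := sum_at (q := q) (fun k => z * t ^ k) (q - 1)
  have s5 := sum_at (q := q) (fun k => z * t ^ k) 0
  have h3 : ∑ k : Fin q, (if 1 ≤ (j : ℕ) then (if (k : ℕ) = j - 1 then t ^ (k : ℕ) else 0) else 0) =
      if 1 ≤ (j : ℕ) then ∑ k : Fin q, (if (k : ℕ) = j - 1 then t ^ (k : ℕ) else 0) else 0 := by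
    split_ifs <;> simp
  have h4 : ∑ k : Fin q, (if (j : ℕ) = 0 then (if (k : ℕ) = q - 1 then z * t ^ (k : ℕ) else 0)
      else 0) = if (j : ℕ) = 0 then ∑ k : Fin q, (if (k : ℕ) = q - 1 then z * t ^ (k : ℕ) else 0)
      else 0 := by
    split_ifs <;> simp
  have h5 : ∑ k : Fin q, (if (j : ℕ) + 1 = q then (if (k : ℕ) = 0 then z * t ^ (k : ℕ) else 0)
      else 0) = if (j : ℕ) + 1 = q then ∑ k : Fin q, (if (k : ℕ) = 0 then z * t ^ (k : ℕ) else 0)
      else 0 := by
    split_ifs <;> simp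
  rw [h3, h4, h5, s1, s2, s3, s4, s5, if_pos hj]
  have hq1 : q - 1 < q := by omega
  have hq0 : 0 < q := by omega
  have hj1 : (j : ℕ) - 1 < q := by omega
  rw [if_pos hj1, if_pos hq1, if_pos hq0]
  by_cases hj0 : (j : ℕ) = 0
  · have a1 : (j : ℕ) + 1 < q := by omega
    have a2 : ¬ (1 ≤ (j : ℕ)) := by omega
    have a3 : ¬ ((j : ℕ) + 1 = q) := by omega
    rw [if_pos a1, if_neg a2, if_pos hj0, if_neg a3, hj0]
    have hp : t ^ (q - 1) = z * t⁻¹ := by
      rw [← htq]
      obtain ⟨n, rfl⟩ : ∃ n, q = n + 1 := ⟨q - 1, by omega⟩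
      rw [Nat.add_sub_cancel, pow_succ, mul_assoc, mul_inv_cancel₀ ht, mul_one]
    rw [hp]
    linear_combination (-t⁻¹) * hz
  · have a2 : 1 ≤ (j : ℕ) := by omega
    rw [if_pos a2, if_neg hj0]
    have hpm : t ^ ((j : ℕ) - 1) = t⁻¹ * t ^ (j : ℕ) := by
      obtain ⟨n, hn⟩ : ∃ n, (j : ℕ) = n + 1 := ⟨j - 1, by omega⟩
      rw [hn, Nat.add_sub_cancel, pow_succ', inv_mul_cancel_left₀ ht]
    by_cases hjl : (j : ℕ) + 1 = q
    · have a1 : ¬ ((j : ℕ) + 1 < q) := by omega
      rw [if_neg a1, if_pos hjl, hpm]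
      have hz' : z = t * t ^ (j : ℕ) := by
        rw [← htq, ← pow_succ']
        exact congrArg _ hjl.symm
      rw [pow_zero, mul_one]
      linear_combination (-1 : ℂ) * hz'
    · have a1 : (j : ℕ) + 1 < q := by omega
      rw [if_pos a1, if_neg hjl, hpm, pow_succ]
      ring

end Pool.Agent.Q157.FL
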