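import Mathlib
import Pool.Agent.Q157.FL.Est

set_option autoImplicit false

open Matrix Finset

namespace Pool.Agent.Q157.FL

/-- orthogonality of the exponentials -/
lemma orth {q : ℕ} (hq : 0 < q) {ζ ρ : ℂ} (hζ : IsPrimitiveRoot ζ q) (hρ : ρ ≠ 0) :
    (Matrix.of fun (a j : Fin q) => (1 / (q : ℂ)) * ((ρ * ζ ^ (a : ℕ))⁻¹) ^ (j : ℕ)) *
      (Matrix.of fun (j a : Fin q) => (ρ * ζ ^ (a : ℕ)) ^ (j : ℕ)) = 1 := by
  have hq0 : (q : ℂ) ≠ 0 := by exact_mod_cast hq.ne'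
  have hζ0 : ζ ≠ 0 := hζ.ne_zero hq.ne'
  ext a b
  rw [mul_apply]
  simp only [of_apply]
  have e : ∀ j : Fin q, 1 / (q : ℂ) * ((ρ * ζ ^ (a : ℕ))⁻¹) ^ (j : ℕ) * (ρ * ζ ^ (b : ℕ)) ^ (j : ℕ) =
      1 / (q : ℂ) * ((ζ ^ (a : ℕ))⁻¹ * ζ ^ (b : ℕ)) ^ (j : ℕ) := by
    intro j
    rw [mul_assoc, ← mul_pow]
    congr 2
    rw [mul_inv]
    have : (ρ⁻¹ * (ζ ^ (a : ℕ))⁻¹) * (ρ * ζ ^ (b : ℕ)) = (ρ⁻¹ * ρ) * ((ζ ^ (a : ℕ))⁻¹ * ζ ^ (b : ℕ)) := by
      ring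
    rw [this, inv_mul_cancel₀ hρ, one_mul]
  rw [Finset.sum_congr rfl fun j _ => e j, ← Finset.mul_sum]
  rw [Fin.sum_univ_eq_sum_range (fun j => ((ζ ^ (a : ℕ))⁻¹ * ζ ^ (b : ℕ)) ^ j) q]
  by_cases hab : a = b
  · subst hab
    rw [inv_mul_cancel₀ (pow_ne_zero _ hζ0), one_apply_eq]
    simp [hq0]
  · rw [one_apply_ne hab]
    have hx : (ζ ^ (a : ℕ))⁻¹ * ζ ^ (b : ℕ) ≠ 1 := by
      intro h
      apply hab
      apply Fin.ext
      have h1 : ζ ^ (b : ℕ) = ζ ^ (a : ℕ) := by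
        rw [inv_mul_eq_one₀ (pow_ne_zero _ hζ0)] at h
        exact h.symm
      exact (hζ.pow_inj b.2 a.2 h1).symm
    rw [geom_sum_eq hx]
    have hxq : ((ζ ^ (a : ℕ))⁻¹ * ζ ^ (b : ℕ)) ^ q = 1 := by
      rw [mul_pow, inv_pow, ← pow_mul, ← pow_mul, mul_comm (a : ℕ), mul_comm (b : ℕ), pow_mul, pow_mul,
        hζ.pow_eq_one, one_pow, one_pow, inv_one, one_mul]
    rw [hxq, sub_self, zero_div, mul_zero]

/-- the matrix in the basis of exponentials -/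
theorem det_conj {q : ℕ} (hq : 3 ≤ q) {ζ ρ z : ℂ} (hζ : IsPrimitiveRoot ζ q) (hz : z * z = 1)
    (hρ : ρ ^ q = z) (V : Fin q → ℂ) (lam : ℂ) :
    det (NM q (fun j => lam - V j) z z) =
      det (diagonal (fun a : Fin q => lam - (ρ * ζ ^ (a : ℕ) + (ρ * ζ ^ (a : ℕ))⁻¹)) -
        Matrix.of fun a b : Fin q => (1 / (q : ℂ)) *
          ∑ j : Fin q, V j * ((ζ ^ (a : ℕ))⁻¹ * ζ ^ (b : ℕ)) ^ (j : ℕ)) := by
  have hq0 : 0 < q := by omega
  have hz0 : z ≠ 0 := left_ne_zero_of_mul_eq_one hz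
  have hρ0 : ρ ≠ 0 := by
    rintro rfl
    rw [zero_pow hq0.ne'] at hρ
    exact hz0 hρ.symm
  have hζ0 : ζ ≠ 0 := hζ.ne_zero hq0.ne'
  set G : Matrix (Fin q) (Fin q) ℂ :=
    Matrix.of fun (a j : Fin q) => (1 / (q : ℂ)) * ((ρ * ζ ^ (a : ℕ))⁻¹) ^ (j : ℕ) with hG
  set F : Matrix (Fin q) (Fin q) ℂ :=
    Matrix.of fun (j a : Fin q) => (ρ * ζ ^ (a : ℕ)) ^ (j : ℕ) with hF
  set N := NM q (fun j => lam - V j) z z with hN
  set D : Fin q → ℂ := fun a => lam - (ρ * ζ ^ (a : ℕ) + (ρ * ζ ^ (a : ℕ))⁻¹) with hD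
  have hGF : G * F = 1 := orth hq0 hζ hρ0
  have hNF : N * F = F * diagonal D - diagonal V * F := by
    ext j a
    rw [mul_apply, Matrix.sub_apply, mul_diagonal, diagonal_mul]
    have ht : ρ * ζ ^ (a : ℕ) ≠ 0 := mul_ne_zero hρ0 (pow_ne_zero _ hζ0)
    have htq : (ρ * ζ ^ (a : ℕ)) ^ q = z := by
      rw [mul_pow, hρ, ← pow_mul, mul_comm (a : ℕ), pow_mul, hζ.pow_eq_one, one_pow, mul_one]
    have h1 := row_sum hq (fun j => lam - V j) hz ht htq j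
    simp only [hF, of_apply, hD]
    rw [hN, h1]
    ring
  have hdet : det N = det (G * (N * F)) := by
    rw [det_mul, det_mul]
    have h1 : det G * det F = 1 := by rw [← det_mul, hGF, det_one]
    linear_combination (-det N) * h1
  rw [hdet, hNF, mul_sub, ← mul_assoc, hGF, one_mul]
  congr 2
  ext a b
  rw [mul_apply, of_apply, Finset.mul_sum]
  refine Finset.sum_congr rfl fun j _ => ?_
  rw [diagonal_mul]
  simp only [hG, hF, of_apply]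
  have : ((ρ * ζ ^ (a : ℕ))⁻¹) ^ (j : ℕ) * (ρ * ζ ^ (b : ℕ)) ^ (j : ℕ) =
      ((ζ ^ (a : ℕ))⁻¹ * ζ ^ (b : ℕ)) ^ (j : ℕ) := by
    rw [← mul_pow]
    congr 1
    rw [mul_inv]
    have : (ρ⁻¹ * (ζ ^ (a : ℕ))⁻¹) * (ρ * ζ ^ (b : ℕ)) = (ρ⁻¹ * ρ) * ((ζ ^ (a : ℕ))⁻¹ * ζ ^ (b : ℕ)) := by
      ring
    rw [this, inv_mul_cancel₀ hρ0, one_mul]
  rw [← this]
  ring

/-- reversal of the sites in an exponential sum -/
lemma rev_sum {q : ℕ} (V : Fin q → ℂ) (hV : ∀ j, V (Fin.rev j) = -V j) {ω : ℂ} (hω : ω ≠ 0) :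
    ∑ j : Fin q, V j * ω ^ (j : ℕ) = -ω ^ (q - 1) * ∑ j : Fin q, V j * (ω⁻¹) ^ (j : ℕ) := by
  rw [← Equiv.sum_comp Fin.revPerm, Finset.mul_sum]
  refine Finset.sum_congr rfl fun j _ => ?_
  rw [Fin.revPerm_apply, hV, Fin.val_rev]
  have hj := j.2
  have : ω ^ (q - ((j : ℕ) + 1)) = ω ^ (q - 1) * (ω⁻¹) ^ (j : ℕ) := by
    have h1 : ω ^ (q - 1) = ω ^ (q - ((j : ℕ) + 1)) * ω ^ (j : ℕ) := by
      rw [← pow_add]; congr 1; omega
    rw [h1, mul_assoc, ← mul_pow, mul_inv_cancel₀ hω, one_pow, mul_one]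
  rw [this]
  ring

lemma rev_norm {q : ℕ} (V : Fin q → ℂ) (hV : ∀ j, V (Fin.rev j) = -V j) {ω : ℂ} (hω : ‖ω‖ = 1) :
    ‖∑ j : Fin q, V j * (ω⁻¹) ^ (j : ℕ)‖ = ‖∑ j : Fin q, V j * ω ^ (j : ℕ)‖ := by
  have h0 : ω ≠ 0 := by
    rintro rfl; simp at hω
  rw [rev_sum V hV h0, norm_mul, norm_neg, norm_pow, hω, one_pow, one_mul]

lemma sum_zero {q : ℕ} (V : Fin q → ℂ) (hV : ∀ j, V (Fin.rev j) = -V j) : ∑ j, V j = 0 := by
  have h := rev_sum V hV (one_ne_zero)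
  simp only [one_pow, mul_one, inv_one] at h
  linear_combination h / 2

/-- the basic estimate for one pair of frequencies -/
theorem est_s {q s : ℕ} (hq : 3 ≤ q) (hs1 : 1 ≤ s) (hs2 : 2 * s ≤ q) {ζ ρ : ℂ}
    (hζ : IsPrimitiveRoot ζ q) (hρ : ρ ^ 2 = ζ ^ s) :
    ∃ (z lam : ℂ) (κ C : ℝ), z * z = 1 ∧ ‖lam‖ ≤ 2 ∧ 0 < κ ∧ 0 ≤ C ∧
      det (NM q (fun _ => lam) z z) = 0 ∧ ∀ (V : Fin q → ℂ) (ε : ℝ), 0 ≤ ε → ε ≤ 1 →
        (∀ j, V (Fin.rev j) = -V j) → (∀ j, ‖V j‖ ≤ ε) →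
        κ * ‖∑ j : Fin q, V j * (ζ ^ s) ^ (j : ℕ)‖ ^ 2 ≤
          ‖det (NM q (fun j => lam - V j) z z)‖ + C * ε ^ 3 := by
  classical
  have hq0 : 0 < q := by omega
  have hqR : (0:ℝ) < q := by exact_mod_cast hq0
  have hζn : ‖ζ‖ = 1 := hζ.norm'_eq_one hq0.ne'
  have hζ0 : ζ ≠ 0 := hζ.ne_zero hq0.ne'
  have hρn : ‖ρ‖ = 1 := by
    have h1 : ‖ρ‖ ^ 2 = 1 := by rw [← norm_pow, hρ, norm_pow, hζn, one_pow]
    nlinarith [norm_nonneg ρ]
  have hρ0 : ρ ≠ 0 := by rintro rfl; simp at hρn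
  have hz : ρ ^ q * ρ ^ q = 1 := by
    rw [← pow_add, ← two_mul, pow_mul, hρ, ← pow_mul, mul_comm s, pow_mul, hζ.pow_eq_one, one_pow]
  set lam : ℂ := ρ + ρ⁻¹ with hlam
  set D : Fin q → ℂ := fun a => lam - (ρ * ζ ^ (a : ℕ) + (ρ * ζ ^ (a : ℕ))⁻¹) with hD
  set a0 : Fin q := ⟨0, hq0⟩ with ha0
  set a1 : Fin q := ⟨q - s, by omega⟩ with ha1
  have hne : a0 ≠ a1 := by
    intro h
    have := congrArg Fin.val h
    simp only [ha0, ha1] at this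
    omega
  have htn : ∀ a : Fin q, ‖ρ * ζ ^ (a : ℕ)‖ = 1 := fun a => by
    rw [norm_mul, hρn, norm_pow, hζn, one_pow, one_mul]
  have ht0 : ∀ a : Fin q, ρ * ζ ^ (a : ℕ) ≠ 0 := fun a => mul_ne_zero hρ0 (pow_ne_zero _ hζ0)
  have hlam2 : ‖lam‖ ≤ 2 := by
    calc ‖ρ + ρ⁻¹‖ ≤ ‖ρ‖ + ‖ρ⁻¹‖ := norm_add_le _ _
      _ = 2 := by rw [norm_inv, hρn]; norm_num
  have hDn : ∀ a, ‖D a‖ ≤ 4 := by
    intro a
    calc ‖D a‖ ≤ ‖lam‖ + ‖ρ * ζ ^ (a : ℕ) + (ρ * ζ ^ (a : ℕ))⁻¹‖ := norm_sub_le _ _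
      _ ≤ 2 + (1 + 1) := by
          refine add_le_add hlam2 ((norm_add_le _ _).trans ?_)
          rw [norm_inv, htn]; norm_num
      _ = 4 := by norm_num
  have hfac : ∀ a, D a = (ρ - ρ * ζ ^ (a : ℕ)) * (1 - (ρ * (ρ * ζ ^ (a : ℕ)))⁻¹) := by
    intro a
    simp only [hD, hlam]
    have h1 := ht0 a
    have h2 : ζ ^ (a : ℕ) ≠ 0 := pow_ne_zero _ hζ0
    field_simp
    ring
  have hρρ : ∀ a : Fin q, ρ * (ρ * ζ ^ (a : ℕ)) = ζ ^ (s + a) := by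
    intro a
    rw [← mul_assoc, ← pow_two, hρ, ← pow_add]
  have hD0 : D a0 = 0 := by
    rw [hfac]; simp [ha0]
  have hD1 : D a1 = 0 := by
    rw [hfac, hρρ]
    have : s + ((a1 : Fin q) : ℕ) = q := by simp only [ha1]; omega
    rw [this, hζ.pow_eq_one]; simp
  have hDne : ∀ a, a ≠ a0 → a ≠ a1 → D a ≠ 0 := by
    intro a h0 h1
    rw [hfac]
    refine mul_ne_zero ?_ ?_
    · intro h
      apply h0
      apply Fin.ext
      have h2 : ρ * (1 - ζ ^ (a : ℕ)) = 0 := by linear_combination h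
      have h3 : ζ ^ (a : ℕ) = ζ ^ 0 := by
        rcases mul_eq_zero.1 h2 with h4 | h4
        · exact absurd h4 hρ0
        · rw [pow_zero]; linear_combination -h4
      exact hζ.pow_inj a.2 hq0 h3
    · intro h
      apply h1
      apply Fin.ext
      rw [hρρ] at h
      have h2 : ζ ^ (s + (a : ℕ)) = 1 := by
        have : (ζ ^ (s + (a : ℕ)))⁻¹ = 1 := by linear_combination -h
        rwa [inv_eq_one] at this
      rw [hζ.pow_eq_one_iff_dvd] at h2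
      obtain ⟨k, hk⟩ := h2
      have ha := a.2
      have hk1 : k = 1 := by
        have h3 : k < 2 := by
          by_contra h4
          push Not at h4
          have : q * 2 ≤ q * k := Nat.mul_le_mul_left q h4
          omega
        have h5 : 0 < k := by
          rcases Nat.eq_zero_or_pos k with h6 | h6
          · rw [h6, mul_zero] at hk; omega
          · exact h6
        omega
      rw [hk1, mul_one] at hk
      simp only [ha1]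
      omega
  set Pr : ℝ := ∏ i ∈ (univ.erase a0).erase a1, ‖D i‖ with hPr
  have hPrpos : 0 < Pr := by
    refine Finset.prod_pos fun i hi => ?_
    rw [Finset.mem_erase, Finset.mem_erase] at hi
    exact norm_pos_iff.2 (hDne i hi.2.1 hi.1)
  refine ⟨ρ ^ q, lam, Pr / q ^ 2, q.factorial * 5 ^ q, hz, hlam2, by positivity, by positivity, ?_, ?_⟩
  · have h1 := det_conj hq hζ hz rfl (fun _ => 0) lam
    simp only [sub_zero, zero_mul, Finset.sum_const_zero, mul_zero] at h1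
    rw [h1]
    have h2 : (Matrix.of fun a b : Fin q => (0:ℂ)) = 0 := by ext; simp
    rw [h2, sub_zero, det_diagonal]
    exact Finset.prod_eq_zero (Finset.mem_univ a0) hD0
  · intro V ε hε0 hε1 hV hVε
    rw [det_conj hq hζ hz rfl V lam]
    set E : Matrix (Fin q) (Fin q) ℂ := Matrix.of fun a b : Fin q => (1 / (q : ℂ)) *
          ∑ j : Fin q, V j * ((ζ ^ (a : ℕ))⁻¹ * ζ ^ (b : ℕ)) ^ (j : ℕ) with hE
    have hEn : ∀ a b, ‖E a b‖ ≤ ε := by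
      intro a b
      simp only [hE, of_apply]
      rw [norm_mul]
      have h1 : ‖∑ j : Fin q, V j * ((ζ ^ (a : ℕ))⁻¹ * ζ ^ (b : ℕ)) ^ (j : ℕ)‖ ≤ q * ε := by
        calc ‖∑ j : Fin q, V j * ((ζ ^ (a : ℕ))⁻¹ * ζ ^ (b : ℕ)) ^ (j : ℕ)‖ ≤
              ∑ j : Fin q, ‖V j * ((ζ ^ (a : ℕ))⁻¹ * ζ ^ (b : ℕ)) ^ (j : ℕ)‖ := norm_sum_le _ _
          _ ≤ ∑ _j : Fin q, ε := by
              refine Finset.sum_le_sum fun j _ => ?_
              rw [norm_mul, norm_pow, norm_mul, norm_inv, norm_pow, norm_pow, hζn]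
              simpa using hVε j
          _ = q * ε := by simp
      have h2 : ‖(1 / (q : ℂ))‖ = 1 / q := by simp
      rw [h2]
      calc 1 / (q:ℝ) * _ ≤ 1 / (q:ℝ) * (q * ε) := mul_le_mul_of_nonneg_left h1 (by positivity)
        _ = ε := by field_simp
    have hEd : ∀ a, E a a = 0 := by
      intro a
      simp only [hE, of_apply]
      rw [inv_mul_cancel₀ (pow_ne_zero _ hζ0)]
      simp only [one_pow, mul_one]
      rw [sum_zero V hV, mul_zero]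
    have h1 := det_two_zero D E hne hD0 hD1 hDn hε0 hε1 hEn hEd
    refine le_trans (le_of_eq ?_) h1
    have hsn : ‖ζ ^ s‖ = 1 := by rw [norm_pow, hζn, one_pow]
    have hqs : ζ ^ (q - s) = (ζ ^ s)⁻¹ := by
      apply eq_inv_of_mul_eq_one_left
      rw [← pow_add]
      have : q - s + s = q := by omega
      rw [this, hζ.pow_eq_one]
    have e1 : ‖E a0 a1‖ = (1 / q) * ‖∑ j : Fin q, V j * (ζ ^ s) ^ (j : ℕ)‖ := by
      simp only [hE, of_apply, ha0, ha1, pow_zero, inv_one, one_mul]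
      rw [hqs, norm_mul, rev_norm V hV hsn]
      simp
    have e2 : ‖E a1 a0‖ = (1 / q) * ‖∑ j : Fin q, V j * (ζ ^ s) ^ (j : ℕ)‖ := by
      simp only [hE, of_apply, ha0, ha1, pow_zero, mul_one]
      rw [hqs, inv_inv, norm_mul]
      simp
    rw [e1, e2]
    field_simp
    rw [← hPr]
    ring

/-- an antisymmetric potential is controlled by half of its Fourier coefficients -/
theorem inv_bound {q : ℕ} (hq : 3 ≤ q) {ζ : ℂ} (hζ : IsPrimitiveRoot ζ q) (V : Fin q → ℂ)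
    (hV : ∀ j, V (Fin.rev j) = -V j) (B : ℝ)
    (h : ∀ s, 1 ≤ s → 2 * s ≤ q → ‖∑ j : Fin q, V j * (ζ ^ s) ^ (j : ℕ)‖ ≤ B) (j : Fin q) :
    ‖V j‖ ≤ B := by
  classical
  have hq0 : 0 < q := by omega
  have hqC : (q : ℂ) ≠ 0 := by exact_mod_cast hq0.ne'
  have hζn : ‖ζ‖ = 1 := hζ.norm'_eq_one hq0.ne'
  have hζ0 : ζ ≠ 0 := hζ.ne_zero hq0.ne'
  have hB : 0 ≤ B := (norm_nonneg _).trans (h 1 le_rfl (by omega))
  have hall : ∀ a : Fin q, ‖∑ k : Fin q, V k * (ζ ^ (a : ℕ)) ^ (k : ℕ)‖ ≤ B := by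
    intro a
    rcases Nat.eq_zero_or_pos (a : ℕ) with h0 | h0
    · rw [h0]
      simp only [pow_zero, one_pow, mul_one]
      rw [sum_zero V hV, norm_zero]
      exact hB
    · by_cases h2 : 2 * (a : ℕ) ≤ q
      · exact h a h0 h2
      · have ha := a.2
        have h3 := h (q - a) (by omega) (by omega)
        have hqs : ζ ^ (q - (a : ℕ)) = (ζ ^ (a : ℕ))⁻¹ := by
          apply eq_inv_of_mul_eq_one_left
          rw [← pow_add]
          have : q - (a : ℕ) + a = q := by omega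
          rw [this, hζ.pow_eq_one]
        rw [hqs, rev_norm V hV (by rw [norm_pow, hζn, one_pow])] at h3
        exact h3
  have horth := orth hq0 hζ (one_ne_zero (α := ℂ))
  rw [mul_eq_one_comm] at horth
  have hinv : V j = (1 / (q : ℂ)) * ∑ a : Fin q, ((ζ ^ (a : ℕ))⁻¹) ^ (j : ℕ) *
      ∑ k : Fin q, V k * (ζ ^ (a : ℕ)) ^ (k : ℕ) := by
    have h1 : V j = ∑ k : Fin q, V k * (1 : Matrix (Fin q) (Fin q) ℂ) k j := by
      simp [one_apply]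
    rw [h1, ← horth]
    simp only [mul_apply, of_apply, one_mul, Finset.mul_sum]
    rw [Finset.sum_comm]
    refine Finset.sum_congr rfl fun a _ => Finset.sum_congr rfl fun k _ => ?_
    ring
  rw [hinv, norm_mul]
  have h2 : ‖(1 / (q : ℂ))‖ = 1 / q := by simp
  rw [h2]
  have hqR : (0:ℝ) < q := by exact_mod_cast hq0
  calc 1 / (q:ℝ) * _ ≤ 1 / (q:ℝ) * (q * B) := by
        refine mul_le_mul_of_nonneg_left ?_ (by positivity)
        calc _ ≤ ∑ a : Fin q, ‖((ζ ^ (a : ℕ))⁻¹) ^ (j : ℕ) *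
              ∑ k : Fin q, V k * (ζ ^ (a : ℕ)) ^ (k : ℕ)‖ := norm_sum_le _ _
          _ ≤ ∑ _a : Fin q, B := by
              refine Finset.sum_le_sum fun a _ => ?_
              rw [norm_mul, norm_pow, norm_inv, norm_pow, hζn]
              simpa using hall a
          _ = q * B := by simp
    _ = B := by field_simp

end Pool.Agent.Q157.FL
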