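import Mathlib
import Pool.Agent.Q157.FL.Four

set_option autoImplicit false

open Matrix Finset

namespace Pool.Agent.Q157.FL

lemma det_NM_map {S T : Type*} [CommRing S] [CommRing T] (f : S →+* T) (q : ℕ) (d : Fin q → S)
    (z w : S) : f (det (NM q d z w)) = det (NM q (fun j => f (d j)) (f z) (f w)) := by
  rw [RingHom.map_det, RingHom.mapMatrix_apply]
  congr 1
  ext j k
  simp only [map_apply, NM_apply, map_sub, apply_ite f, map_one, map_zero]

/-- the Floquet matrix, with arbitrary corners -/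
def LM {T : Type*} [CommRing T] (q : ℕ) (V : Fin q → T) (z w : T) : Matrix (Fin q) (Fin q) T :=
  Matrix.of fun j k => (if j = k then V j else 0) + (if (k : ℕ) = j + 1 then 1 else 0) +
    (if (j : ℕ) = k + 1 then 1 else 0) + (if (j : ℕ) = 0 ∧ (k : ℕ) + 1 = q then w else 0) +
    (if (k : ℕ) = 0 ∧ (j : ℕ) + 1 = q then z else 0)

lemma charpoly_LM {T : Type*} [CommRing T] (q : ℕ) (V : Fin q → T) (z w : T) :
    (LM q V z w).charpoly = det (NM q (fun j => Polynomial.X - Polynomial.C (V j))
      (Polynomial.C z) (Polynomial.C w)) := by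
  unfold Matrix.charpoly
  congr 1
  ext j k : 2
  rw [charmatrix_apply, diagonal_apply, NM_apply]
  simp only [LM, of_apply, map_add, apply_ite Polynomial.C, map_one, map_zero]
  by_cases h : j = k
  · rw [if_pos h, if_pos h, if_pos h]; ring
  · rw [if_neg h, if_neg h, if_neg h]; ring

/-- the antisymmetric potential with first half `x` -/
def pot {T : Type*} [CommRing T] (q : ℕ) {m : ℕ} (x : Fin m → T) (j : Fin q) : T :=
  ∑ i : Fin m, x i * ((if (j : ℕ) = i then 1 else 0) - (if (j : ℕ) + i + 1 = q then 1 else 0))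

lemma pot_rev {T : Type*} [CommRing T] (q : ℕ) {m : ℕ} (x : Fin m → T) (j : Fin q) :
    pot q x (Fin.rev j) = -pot q x j := by
  unfold pot
  rw [← Finset.sum_neg_distrib]
  refine Finset.sum_congr rfl fun i _ => ?_
  have hj := j.2
  rw [Fin.val_rev]
  have e1 : (q - ((j : ℕ) + 1) = i) = ((j : ℕ) + i + 1 = q) := by apply propext; omega
  have e2 : (q - ((j : ℕ) + 1) + i + 1 = q) = ((j : ℕ) = i) := by apply propext; omega
  simp only [e1, e2]
  ring

lemma pot_at {T : Type*} [CommRing T] (q : ℕ) {m : ℕ} (h2 : 2 * m ≤ q) (x : Fin m → T)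
    (i : Fin m) (j : Fin q) (hj : (j : ℕ) = i) : pot q x j = x i := by
  unfold pot
  rw [Finset.sum_eq_single i]
  · rw [if_pos hj, if_neg (by have := i.2; omega)]; ring
  · intro k _ hk
    rw [if_neg (by rw [hj]; exact fun h => hk (Fin.ext h.symm)), if_neg (by have := i.2; have := k.2; omega)]
    ring
  · intro h; exact absurd (Finset.mem_univ _) h

lemma pot_map {S T : Type*} [CommRing S] [CommRing T] (f : S →+* T) (q : ℕ) {m : ℕ}
    (x : Fin m → S) (j : Fin q) : f (pot q x j) = pot q (fun i => f (x i)) j := by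
  unfold pot
  simp only [map_sum, map_mul, map_sub, apply_ite f, map_one, map_zero]

lemma norm_pot_le (q : ℕ) {m : ℕ} (x : Fin m → ℂ) {ε : ℝ} (h : ∀ i, ‖x i‖ ≤ ε) (j : Fin q) :
    ‖pot q x j‖ ≤ m * (2 * ε) := by
  unfold pot
  refine (norm_sum_le _ _).trans ?_
  calc _ ≤ ∑ _i : Fin m, 2 * ε := by
        refine Finset.sum_le_sum fun i _ => ?_
        rw [norm_mul]
        have h1 : ‖((if (j : ℕ) = i then 1 else 0) - (if (j : ℕ) + i + 1 = q then 1 else 0) : ℂ)‖ ≤ 2 := by
          split_ifs <;> norm_num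
        have h2 := h i
        have h3 := norm_nonneg (x i)
        nlinarith [norm_nonneg ((if (j : ℕ) = i then 1 else 0) - (if (j : ℕ) + i + 1 = q then 1 else 0) : ℂ)]
    _ = m * (2 * ε) := by simp

/-- the difference of the characteristic polynomials, for `z = 1` -/
noncomputable def Zx {T : Type*} [CommRing T] (q : ℕ) (V : Fin q → T) : Polynomial T :=
  det (NM q (fun j => Polynomial.X - Polynomial.C (V j)) 1 1) -
    det (NM q (fun _ => Polynomial.X) 1 1)

lemma Zx_map {S T : Type*} [CommRing S] [CommRing T] (f : S →+* T) (q : ℕ) (V : Fin q → S) :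
    (Zx q V).map f = Zx q (fun j => f (V j)) := by
  have h1 := det_NM_map (Polynomial.mapRingHom f) q
    (fun j => Polynomial.X - Polynomial.C (V j)) 1 1
  have h2 := det_NM_map (Polynomial.mapRingHom f) q (fun _ => Polynomial.X) 1 1
  simp only [map_one, map_sub, Polynomial.coe_mapRingHom, Polynomial.map_X, Polynomial.map_C] at h1 h2
  unfold Zx
  rw [Polynomial.map_sub, h1, h2]

lemma Zx_eval {T : Type*} [CommRing T] (q : ℕ) (V : Fin q → T) (lam : T) :
    (Zx q V).eval lam = det (NM q (fun j => lam - V j) 1 1) - det (NM q (fun _ => lam) 1 1) := by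
  have h1 := det_NM_map (Polynomial.evalRingHom lam) q
    (fun j => Polynomial.X - Polynomial.C (V j)) 1 1
  have h2 := det_NM_map (Polynomial.evalRingHom lam) q (fun _ => Polynomial.X) 1 1
  simp only [map_one, map_sub, Polynomial.coe_evalRingHom, Polynomial.eval_X, Polynomial.eval_C] at h1 h2
  unfold Zx
  rw [Polynomial.eval_sub, h1, h2]

lemma Zx_charpoly {T : Type*} [CommRing T] (q : ℕ) (V : Fin q → T) :
    Zx q V = (LM q V 1 1).charpoly - (LM q (fun _ => 0) 1 1).charpoly := by
  unfold Zx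
  rw [charpoly_LM, charpoly_LM, map_one]
  simp only [map_zero, sub_zero]

lemma Zx_coeff_ge (q : ℕ) (V : Fin q → ℂ) (n : ℕ) (hn : q ≤ n) : (Zx q V).coeff n = 0 := by
  rw [Zx_charpoly, Polynomial.coeff_sub]
  have h1 : ∀ W : Fin q → ℂ, (LM q W 1 1).charpoly.natDegree = q := fun W => by
    rw [charpoly_natDegree_eq_dim, Fintype.card_fin]
  rcases hn.eq_or_lt with rfl | hn
  · have h2 : ∀ W : Fin q → ℂ, (LM q W 1 1).charpoly.coeff q = 1 := fun W => by
      have := (charpoly_monic (LM q W 1 1)).coeff_natDegree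
      rwa [h1 W] at this
    rw [h2, h2, sub_self]
  · rw [Polynomial.coeff_eq_zero_of_natDegree_lt (by rw [h1]; exact hn),
      Polynomial.coeff_eq_zero_of_natDegree_lt (by rw [h1]; exact hn), sub_self]

/-- parity of the difference -/
lemma Zx_eval_neg {q : ℕ} (hq : 3 ≤ q) (V : Fin q → ℂ) (hV : ∀ j, V (Fin.rev j) = -V j) (lam : ℂ) :
    (Zx q V).eval (-lam) = (-1) ^ q * (Zx q V).eval lam := by
  have key : ∀ W : Fin q → ℂ, (∀ j, W (Fin.rev j) = -W j) →
      det (NM q (fun j => -lam - W j) 1 1) =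
        (-1) ^ q * det (NM q (fun j => lam - W j) ((-1) ^ q) ((-1) ^ q)) := by
    intro W hW
    have h1 : (fun j => -lam - W j) = fun j => -(lam + W j) := by ext j; ring
    rw [h1, det_sign hq]
    congr 1
    have h2 : (fun j => lam + W j) = fun j => (fun j => lam - W j) (Fin.rev j) := by
      ext j; simp only [hW]; ring
    rw [h2]
    exact det_rev (fun j => lam - W j) _ _
  have h1 := key V hV
  have h2 := key (fun _ => 0) (fun _ => by simp)
  simp only [sub_zero] at h2
  have hz : ((-1 : ℂ) ^ q) * (-1) ^ q = 1 := by rw [← mul_pow]; simp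
  have h3 := det_indep hq (fun j => lam - V j) (fun _ => lam) hz
  rw [Zx_eval, Zx_eval, h1, h2, ← h3]
  ring

lemma Zx_coeff_parity {q : ℕ} (hq : 3 ≤ q) (V : Fin q → ℂ) (hV : ∀ j, V (Fin.rev j) = -V j) (n : ℕ)
    (hn : n % 2 ≠ q % 2) : (Zx q V).coeff n = 0 := by
  have h1 : (Zx q V).comp (Polynomial.C (-1) * Polynomial.X) = Polynomial.C ((-1) ^ q) * Zx q V := by
    apply Polynomial.funext
    intro lam
    rw [Polynomial.eval_comp, Polynomial.eval_mul, Polynomial.eval_mul, Polynomial.eval_C,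
      Polynomial.eval_C, Polynomial.eval_X, neg_one_mul, Zx_eval_neg hq V hV]
  have h2 := congrArg (fun f => f.coeff n) h1
  simp only [Polynomial.comp_C_mul_X_coeff, Polynomial.coeff_C_mul] at h2
  have h3 : (-1 : ℂ) ^ q = -(-1) ^ n := by
    rcases Nat.even_or_odd n with he | ho
    · have hqo : Odd q := by
        rw [Nat.odd_iff]; rw [Nat.even_iff] at he; omega
      rw [he.neg_one_pow, hqo.neg_one_pow]
    · have hqe : Even q := by
        rw [Nat.even_iff]; rw [Nat.odd_iff] at ho; omega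
      rw [ho.neg_one_pow, hqe.neg_one_pow]; ring
  rw [h3] at h2
  have h4 : ((-1 : ℂ) ^ n) * (-1) ^ n = 1 := by rw [← mul_pow]; simp
  have h5 : 2 * (Zx q V).coeff n = 0 := by
    linear_combination ((-1) ^ n) * h2 - 2 * ((Zx q V).coeff n) * h4
  simpa using h5

/-- the expansion of the difference -/
lemma Zx_expand {q m : ℕ} (hq : 3 ≤ q) (hm : m = q / 2) (V : Fin q → ℂ)
    (hV : ∀ j, V (Fin.rev j) = -V j) (lam : ℂ) :
    (Zx q V).eval lam =
      ∑ k : Fin m, (Zx q V).coeff (q - 2 * ((k : ℕ) + 1)) * lam ^ (q - 2 * ((k : ℕ) + 1)) := by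
  have hdeg : (Zx q V).natDegree < q := by
    by_contra hlt
    push Not at hlt
    have h1 := Zx_coeff_ge q V _ hlt
    rw [Polynomial.coeff_natDegree, Polynomial.leadingCoeff_eq_zero] at h1
    rw [h1, Polynomial.natDegree_zero] at hlt
    omega
  rw [Polynomial.eval_eq_sum_range' hdeg]
  have hinj : ∀ a ∈ (univ : Finset (Fin m)), ∀ b ∈ (univ : Finset (Fin m)),
      q - 2 * ((a : ℕ) + 1) = q - 2 * ((b : ℕ) + 1) → a = b := by
    intro a _ b _ hab
    apply Fin.ext
    have ha := a.2
    have hb := b.2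
    omega
  have him := Finset.sum_image (s := (univ : Finset (Fin m))) (f := fun n => (Zx q V).coeff n * lam ^ n)
    (g := fun k : Fin m => q - 2 * ((k : ℕ) + 1)) hinj
  rw [← him]
  symm
  refine Finset.sum_subset ?_ ?_
  · intro n hn
    rw [Finset.mem_image] at hn
    obtain ⟨k, -, rfl⟩ := hn
    rw [Finset.mem_range]
    have hk := k.2
    omega
  · intro n hn hni
    rw [Finset.mem_range] at hn
    by_cases hp : n % 2 = q % 2
    · exfalso
      apply hni
      rw [Finset.mem_image]
      refine ⟨⟨(q - n) / 2 - 1, by omega⟩, Finset.mem_univ _, ?_⟩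
      simp only
      omega
    · rw [Zx_coeff_parity hq V hV n hp, zero_mul]

end Pool.Agent.Q157.FL
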