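import Mathlib
import Pool.Agent.Q157.FL.Core
import Pool.Agent.Q157.FL.Pol

set_option autoImplicit false

open Matrix Finset

namespace Pool.Agent.Q157.FL

variable {m : ℕ}

/-- degree of the determinant with a constant row -/
lemma degree_det {q : ℕ} (hq : 3 ≤ q) (d : Fin q → MvPolynomial (Fin m) ℂ) (i : Fin q)
    (hdi : d i = 0) (hd : ∀ j, (d j).totalDegree ≤ 1) :
    (det (NM q d 1 1)).totalDegree < q := by
  classical
  have hoff : ∀ j k, j ≠ k → (NM q d 1 1 j k).totalDegree = 0 := by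
    intro j k hjk
    have : NM q d 1 1 j k = MvPolynomial.C (NM q (fun _ => (0:ℂ)) 1 1 j k) := by
      simp only [NM_apply, if_neg hjk, map_sub, apply_ite MvPolynomial.C, map_one, map_zero]
    rw [this, MvPolynomial.totalDegree_C]
  have hdiag : ∀ j, NM q d 1 1 j j = d j := by
    intro j
    have hj := j.2
    have a1 : ¬ ((j : ℕ) = j + 1) := by omega
    have a2 : ¬ ((j : ℕ) = 0 ∧ (j : ℕ) + 1 = q) := by omega
    rw [NM_apply, if_pos rfl]
    simp only [if_neg a1, if_neg a2, sub_zero]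
  have hcol : ∀ (σ : Equiv.Perm (Fin q)) (j : Fin q),
      (NM q d 1 1 (σ j) j).totalDegree ≤ if j = i then 0 else 1 := by
    intro σ j
    by_cases h : σ j = j
    · rw [h, hdiag]
      split_ifs with hji
      · rw [hji, hdi]; simp
      · exact hd j
    · rw [hoff _ _ h]; exact Nat.zero_le _
  have hterm : ∀ σ : Equiv.Perm (Fin q),
      (((Equiv.Perm.sign σ : ℤ) : MvPolynomial (Fin m) ℂ) * ∏ j, NM q d 1 1 (σ j) j).totalDegree ≤
        q - 1 := by
    intro σ
    have hs : (((Equiv.Perm.sign σ : ℤ) : MvPolynomial (Fin m) ℂ)).totalDegree = 0 := by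
      have : (((Equiv.Perm.sign σ : ℤ) : MvPolynomial (Fin m) ℂ)) =
          MvPolynomial.C ((Equiv.Perm.sign σ : ℤ) : ℂ) := by simp
      rw [this, MvPolynomial.totalDegree_C]
    refine (MvPolynomial.totalDegree_mul _ _).trans ?_
    rw [hs, zero_add]
    refine (MvPolynomial.totalDegree_finsetProd _ _).trans ?_
    calc ∑ j, (NM q d 1 1 (σ j) j).totalDegree ≤ ∑ j, (if j = i then 0 else 1) :=
          Finset.sum_le_sum fun j _ => hcol σ j
      _ = q - 1 := by
          have h1 : ∑ j : Fin q, (if j = i then 0 else 1) =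
              ((univ : Finset (Fin q)).filter fun j => ¬ j = i).card := by
            rw [Finset.card_filter]
            refine Finset.sum_congr rfl fun j _ => ?_
            split_ifs <;> simp_all
          rw [h1, Finset.filter_ne', Finset.card_erase_of_mem (Finset.mem_univ i), Finset.card_univ,
            Fintype.card_fin]
  rw [det_apply']
  have : (∑ σ : Equiv.Perm (Fin q), ((Equiv.Perm.sign σ : ℤ) : MvPolynomial (Fin m) ℂ) *
      ∏ j, NM q d 1 1 (σ j) j).totalDegree ≤ q - 1 := by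
    refine (MvPolynomial.totalDegree_finsetSum _ _).trans ?_
    exact Finset.sup_le fun σ _ => hterm σ
  omega

/-- degree of a polynomial in one of the variables -/
lemma degree_aeval (g : Polynomial ℂ) (i : Fin m) :
    (g.eval₂ MvPolynomial.C (MvPolynomial.X i)).totalDegree ≤ g.natDegree := by
  rw [Polynomial.eval₂_eq_sum_range]
  refine (MvPolynomial.totalDegree_finsetSum _ _).trans ?_
  refine Finset.sup_le fun k hk => ?_
  rw [Finset.mem_range] at hk
  refine (MvPolynomial.totalDegree_mul _ _).trans ?_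
  rw [MvPolynomial.totalDegree_C, zero_add, MvPolynomial.totalDegree_X_pow]
  omega

/-- degree of the free determinant minus its leading term -/
lemma degree_free {q : ℕ} (hq : 3 ≤ q) (i : Fin m) :
    (det (NM q (fun _ => (MvPolynomial.X i : MvPolynomial (Fin m) ℂ)) 1 1) -
      MvPolynomial.X i ^ q).totalDegree < q := by
  set g : Polynomial ℂ := (LM q (fun _ => (0:ℂ)) 1 1).charpoly with hg
  have hmon : g.Monic := charpoly_monic _
  have hnd : g.natDegree = q := by rw [hg, charpoly_natDegree_eq_dim, Fintype.card_fin]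
  have h1 : det (NM q (fun _ => (MvPolynomial.X i : MvPolynomial (Fin m) ℂ)) 1 1) =
      g.eval₂ MvPolynomial.C (MvPolynomial.X i) := by
    rw [hg, charpoly_LM]
    have h2 := det_NM_map (Polynomial.eval₂RingHom (MvPolynomial.C : ℂ →+* MvPolynomial (Fin m) ℂ)
      (MvPolynomial.X i)) q (fun _ => Polynomial.X - Polynomial.C 0) (Polynomial.C 1)
      (Polynomial.C 1)
    simp only [map_zero, sub_zero, map_one, Polynomial.coe_eval₂RingHom, Polynomial.eval₂_X] at h2
    simp only [map_zero, sub_zero, map_one]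
    exact h2.symm
  have h2 : g = Polynomial.X ^ q + ∑ k ∈ Finset.range q, Polynomial.C (g.coeff k) * Polynomial.X ^ k := by
    have := hmon.as_sum
    rwa [hnd] at this
  have h3 : det (NM q (fun _ => (MvPolynomial.X i : MvPolynomial (Fin m) ℂ)) 1 1) -
      MvPolynomial.X i ^ q = ∑ k ∈ Finset.range q,
        MvPolynomial.C (g.coeff k) * MvPolynomial.X i ^ k := by
    rw [h1]
    conv_lhs => rw [h2]
    rw [Polynomial.eval₂_add, Polynomial.eval₂_finsetSum, Polynomial.eval₂_X_pow]
    simp only [Polynomial.eval₂_mul, Polynomial.eval₂_C, Polynomial.eval₂_X_pow]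
    ring
  rw [h3]
  refine lt_of_le_of_lt (MvPolynomial.totalDegree_finsetSum _ _) ?_
  rw [Finset.sup_lt_iff (by simp only [bot_eq_zero']; omega)]
  intro k hk
  rw [Finset.mem_range] at hk
  refine lt_of_le_of_lt (MvPolynomial.totalDegree_mul _ _) ?_
  rw [MvPolynomial.totalDegree_C, zero_add, MvPolynomial.totalDegree_X_pow]
  exact hk

lemma degree_pot (q : ℕ) (i : Fin m) (j : Fin q) :
    ((MvPolynomial.X i : MvPolynomial (Fin m) ℂ) - pot q MvPolynomial.X j).totalDegree ≤ 1 := by
  refine (MvPolynomial.totalDegree_sub _ _).trans (max_le ?_ ?_)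
  · rw [MvPolynomial.totalDegree_X]
  · unfold pot
    refine (MvPolynomial.totalDegree_finsetSum _ _).trans (Finset.sup_le fun k _ => ?_)
    have : ((if (j : ℕ) = k then 1 else 0) - (if (j : ℕ) + k + 1 = q then 1 else 0) :
        MvPolynomial (Fin m) ℂ) = MvPolynomial.C ((if (j : ℕ) = k then 1 else 0) -
          (if (j : ℕ) + k + 1 = q then 1 else 0)) := by
      simp only [map_sub, apply_ite MvPolynomial.C, map_one, map_zero]
    rw [this]
    refine (MvPolynomial.totalDegree_mul _ _).trans ?_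
    rw [MvPolynomial.totalDegree_C, MvPolynomial.totalDegree_X]

lemma charpoly_eval {T : Type*} [CommRing T] (q : ℕ) (V : Fin q → T) (z w lam : T) :
    (LM q V z w).charpoly.eval lam = det (NM q (fun j => lam - V j) z w) := by
  rw [charpoly_LM]
  have h1 := det_NM_map (Polynomial.evalRingHom lam) q
    (fun j => Polynomial.X - Polynomial.C (V j)) (Polynomial.C z) (Polynomial.C w)
  simp only [map_sub, Polynomial.coe_evalRingHom, Polynomial.eval_X, Polynomial.eval_C] at h1
  exact h1

/-- **existence of nonzero antisymmetric potentials isospectral to zero** -/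
theorem main {q : ℕ} (hq : 3 < q) : ∃ V : Fin q → ℂ, V ≠ 0 ∧ (∀ j, V j = -V (Fin.rev j)) ∧
    ∀ z : ℂ, z ≠ 0 → (LM q V z z⁻¹).charpoly = (LM q (fun _ => 0) z z⁻¹).charpoly := by
  classical
  by_contra hno
  have hq3 : 3 ≤ q := hq.le
  obtain ⟨m, hm⟩ : ∃ m, m = q / 2 := ⟨_, rfl⟩
  have hm2 : 2 ≤ m := by omega
  have h2m : 2 * m ≤ q := by omega
  set l : Fin m := ⟨m - 1, by omega⟩ with hl
  set Zp := Zx q (pot q (MvPolynomial.X : Fin m → MvPolynomial (Fin m) ℂ)) with hZp
  set p : Fin m → MvPolynomial (Fin m) ℂ := fun k => Zp.coeff (q - 2 * ((k : ℕ) + 1)) with hp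
  have hpe : ∀ (x : Fin m → ℂ) (k : Fin m), MvPolynomial.eval x (p k) =
      (Zx q (pot q x)).coeff (q - 2 * ((k : ℕ) + 1)) := by
    intro x k
    have h1 := Zx_map (MvPolynomial.eval x) q
      (pot q (MvPolynomial.X : Fin m → MvPolynomial (Fin m) ℂ))
    have h2 : (fun j => MvPolynomial.eval x (pot q (MvPolynomial.X : Fin m → MvPolynomial (Fin m) ℂ) j)) =
        pot q x := by
      funext j
      rw [pot_map]
      simp only [MvPolynomial.eval_X]
    rw [h2] at h1
    rw [← h1, Polynomial.coeff_map]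
  have hrev : ∀ (x : Fin m → ℂ) (j : Fin q), pot q x (Fin.rev j) = -pot q x j := fun x j =>
    pot_rev q x j
  have hexp : ∀ (x : Fin m → ℂ) (lam : ℂ), (Zx q (pot q x)).eval lam =
      ∑ k : Fin m, MvPolynomial.eval x (p k) * lam ^ (q - 2 * ((k : ℕ) + 1)) := by
    intro x lam
    rw [Zx_expand hq3 hm (pot q x) (hrev x)]
    exact Finset.sum_congr rfl fun k _ => by rw [hpe]
  have hzero : ∀ x : Fin m → ℂ, (∀ k, MvPolynomial.eval x (p k) = 0) → x = 0 := by
    intro x hx
    by_contra hne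
    apply hno
    refine ⟨pot q x, ?_, fun j => ?_, ?_⟩
    · intro h0
      apply hne
      funext i
      have h1 := congrFun h0 ⟨i, by have := i.2; omega⟩
      rw [pot_at q h2m x i _ rfl] at h1
      exact h1
    · rw [hrev, neg_neg]
    · intro z hz
      apply Polynomial.funext
      intro lam
      rw [charpoly_eval, charpoly_eval]
      have h1 := hexp x lam
      rw [Zx_eval] at h1
      simp only [hx, zero_mul, Finset.sum_const_zero] at h1
      have h2 := det_indep hq3 (fun j => lam - pot q x j) (fun _ => lam) (mul_inv_cancel₀ hz)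
      rw [h1] at h2
      simp only [sub_zero]
      exact sub_eq_zero.1 h2
  set h : Fin m → Fin m → MvPolynomial (Fin m) ℂ := fun i k =>
    -(MvPolynomial.X i) ^ (q - 2 * ((k : ℕ) + 1)) with hh'
  set r : Fin m → MvPolynomial (Fin m) ℂ := fun i => MvPolynomial.X i ^ q +
    ∑ k : Fin m, p k * MvPolynomial.X i ^ (q - 2 * ((k : ℕ) + 1)) with hr'
  have hrel : ∀ i, (MvPolynomial.X i : MvPolynomial (Fin m) ℂ) ^ q = ∑ k, p k * h i k + r i := by
    intro i
    simp only [hh', hr', mul_neg, Finset.sum_neg_distrib]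
    ring
  have hdegh : ∀ i k, (h i k).totalDegree = q - 2 * ((k : ℕ) + 1) := by
    intro i k
    simp only [hh']
    rw [MvPolynomial.totalDegree_neg, MvPolynomial.totalDegree_X_pow]
  have hh : ∀ i k, (h i k).totalDegree < q := by
    intro i k
    rw [hdegh]
    omega
  have hlast : ∀ i, (h i l).totalDegree + 2 * m ≤ q := by
    intro i
    rw [hdegh]
    simp only [hl]
    omega
  have hr : ∀ i, (r i).totalDegree < q := by
    intro i
    have h1 : r i = det (NM q (fun j => (MvPolynomial.X i : MvPolynomial (Fin m) ℂ) -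
        pot q MvPolynomial.X j) 1 1) -
        (det (NM q (fun _ => (MvPolynomial.X i : MvPolynomial (Fin m) ℂ)) 1 1) -
          MvPolynomial.X i ^ q) := by
      apply MvPolynomial.funext
      intro x
      have e1 := det_NM_map (MvPolynomial.eval x) q
        (fun j => (MvPolynomial.X i : MvPolynomial (Fin m) ℂ) - pot q MvPolynomial.X j) 1 1
      have e2 := det_NM_map (MvPolynomial.eval x) q
        (fun _ => (MvPolynomial.X i : MvPolynomial (Fin m) ℂ)) 1 1
      simp only [map_sub, map_one, MvPolynomial.eval_X, pot_map] at e1 e2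
      have e3 := hexp x (x i)
      rw [Zx_eval] at e3
      simp only [hr', map_add, map_sub, map_pow, map_sum, map_mul, MvPolynomial.eval_X]
      rw [e1, e2, ← e3]
      ring
    rw [h1]
    refine lt_of_le_of_lt (MvPolynomial.totalDegree_sub _ _) (max_lt ?_ (degree_free hq3 i))
    refine degree_det hq3 _ ⟨i, by have := i.2; omega⟩ ?_ (fun j => degree_pot q i j)
    rw [pot_at q h2m MvPolynomial.X i _ rfl, sub_self]
  -- growth of the fibres
  obtain ⟨K1, hK1, hgr⟩ := growth (by omega) p h r hrel hr l hlast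
  -- estimates near zero
  set ζ : ℂ := Complex.exp (2 * Real.pi * Complex.I / q) with hζ'
  have hζ : IsPrimitiveRoot ζ q := Complex.isPrimitiveRoot_exp q (by omega)
  have hest : ∀ s : ℕ, 1 ≤ s → 2 * s ≤ q → ∃ A : ℝ, 0 ≤ A ∧ ∀ (c : ℂ) (x : Fin m → ℂ) (η : ℝ),
      0 ≤ η → m * (2 * η) ≤ 1 → (∀ i, ‖x i‖ ≤ η) →
      (∀ k, MvPolynomial.eval x (p k) = if k = l then c else 0) →
      ‖∑ j : Fin q, pot q x j * (ζ ^ s) ^ (j : ℕ)‖ ^ 2 ≤ A * (‖c‖ + η ^ 3) := by
    intro s hs1 hs2
    obtain ⟨z, lam, κ, C, hz, hlam, hκ, hC, hdet0, hE⟩ := est_s hq3 hs1 hs2 hζ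
      (ρ := Complex.exp (Real.pi * Complex.I * s / q)) (by
        rw [hζ', ← Complex.exp_nat_mul, ← Complex.exp_nat_mul]
        congr 1
        push_cast
        ring)
    refine ⟨(2 ^ q + C * (2 * m) ^ 3) / κ, by positivity, ?_⟩
    intro c x η hη hη1 hx hfib
    have h1 := hE (pot q x) (m * (2 * η)) (by positivity) hη1 (hrev x)
      (fun j => norm_pot_le q x hx j)
    have h2 := det_indep hq3 (fun j => lam - pot q x j) (fun _ => lam) hz
    have h3 := hexp x lam
    rw [Zx_eval, ← h2, hdet0, sub_zero] at h3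
    simp only [hfib, ite_mul, zero_mul, Finset.sum_ite_eq', Finset.mem_univ, if_true] at h3
    rw [h3, norm_mul, norm_pow] at h1
    have h4 : ‖lam‖ ^ (q - 2 * ((l : ℕ) + 1)) ≤ 2 ^ q :=
      (pow_le_pow_left₀ (norm_nonneg _) hlam _).trans
        (pow_le_pow_right₀ (by norm_num) (by omega))
    have h5 : ‖c‖ * ‖lam‖ ^ (q - 2 * ((l : ℕ) + 1)) ≤ ‖c‖ * 2 ^ q :=
      mul_le_mul_of_nonneg_left h4 (norm_nonneg _)
    rw [div_mul_eq_mul_div, le_div_iff₀ hκ]
    have h6 : 0 ≤ ‖c‖ := norm_nonneg c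
    have h7 : 0 ≤ η ^ 3 := by positivity
    have h8 : C * (m * (2 * η)) ^ 3 = C * (2 * m) ^ 3 * η ^ 3 := by ring
    rw [h8] at h1
    have h9 : 0 ≤ C * (2 * m) ^ 3 * ‖c‖ := by positivity
    have h10 : 0 ≤ 2 ^ q * η ^ 3 := by positivity
    nlinarith
  choose! A hA0 hA using hest
  set At : ℝ := ∑ s ∈ Finset.range (q + 1), |A s| with hAt
  have hAt0 : 0 ≤ At := Finset.sum_nonneg fun _ _ => abs_nonneg _
  have hAle : ∀ s, s ≤ q → A s ≤ At := fun s hs =>
    (le_abs_self _).trans (Finset.single_le_sum (f := fun s => |A s|) (fun _ _ => abs_nonneg _)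
      (Finset.mem_range.2 (by omega)))
  set η0 : ℝ := 1 / (2 * At + 2 * m + 1) with hη0
  have hden : 0 < 2 * At + 2 * m + 1 := by positivity
  have hη0pos : 0 < η0 := by positivity
  -- compactness
  obtain ⟨κ0, hκ0, hcomp⟩ : ∃ κ0 : ℝ, 0 < κ0 ∧ ∀ x : Fin m → ℂ, ‖x‖ ≤ 1 + 2 * K1 → η0 ≤ ‖x‖ →
      κ0 ≤ ∑ k, ‖MvPolynomial.eval x (p k)‖ := by
    set S : Set (Fin m → ℂ) := Metric.closedBall 0 (1 + 2 * K1) ∩ {x | η0 ≤ ‖x‖} with hS
    have hScpt : IsCompact S :=
      (isCompact_closedBall _ _).inter_right (isClosed_le continuous_const continuous_norm)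
    have hcont : Continuous fun x : Fin m → ℂ => ∑ k, ‖MvPolynomial.eval x (p k)‖ :=
      continuous_finsetSum _ fun k _ => (MvPolynomial.continuous_eval (p k)).norm
    rcases S.eq_empty_or_nonempty with hSe | hSn
    · refine ⟨1, one_pos, fun x h1 h2 => ?_⟩
      exfalso
      have : x ∈ S := ⟨by rw [mem_closedBall_zero_iff]; exact h1, h2⟩
      rw [hSe] at this
      exact this
    · obtain ⟨x0, hx0, hmin⟩ := hScpt.exists_isMinOn hSn hcont.continuousOn
      refine ⟨∑ k, ‖MvPolynomial.eval x0 (p k)‖, ?_, fun x h1 h2 =>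
        hmin ⟨by rw [mem_closedBall_zero_iff]; exact h1, h2⟩⟩
      by_contra hle
      push Not at hle
      have h1 : ∑ k, ‖MvPolynomial.eval x0 (p k)‖ = 0 :=
        le_antisymm hle (Finset.sum_nonneg fun _ _ => norm_nonneg _)
      rw [Finset.sum_eq_zero_iff_of_nonneg fun _ _ => norm_nonneg _] at h1
      have h2 := hzero x0 fun k => norm_eq_zero.1 (h1 k (Finset.mem_univ k))
      have h3 : η0 ≤ ‖x0‖ := hx0.2
      rw [h2, norm_zero] at h3
      linarith
  refine core hm2 p h r hrel hh hr l hlast (K := 2 * At) (κ := min 1 (κ0 / 2)) (by positivity)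
    (by positivity) ?_ ?_
  · intro c x hc hfib i
    have hc1 : ‖c‖ ≤ 1 := hc.trans (min_le_left _ _)
    have hc2 : ‖c‖ ≤ κ0 / 2 := hc.trans (min_le_right _ _)
    have hb : ‖x‖ ≤ 1 + 2 * K1 := by
      rw [pi_norm_le_iff_of_nonneg (by positivity)]
      intro i
      by_contra hlt
      push Not at hlt
      have h1 := hgr c x hfib i
      have h2 : ‖x i‖ ≤ ‖x i‖ ^ (2 * m) := le_self_pow₀ (by linarith) (by omega)
      nlinarith
    have hsumf : ∑ k, ‖MvPolynomial.eval x (p k)‖ = ‖c‖ := by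
      simp only [hfib, apply_ite norm, norm_zero, Finset.sum_ite_eq', Finset.mem_univ, if_true]
    have hsmall : ‖x‖ < η0 := by
      by_contra hge
      push Not at hge
      have h1 := hcomp x hb hge
      rw [hsumf] at h1
      linarith
    set η := ‖x‖ with hη
    have hηn : 0 ≤ η := norm_nonneg _
    have hxi : ∀ i, ‖x i‖ ≤ η := fun i => norm_le_pi_norm x i
    have hη1 : (2 * At + 2 * m + 1) * η ≤ 1 := by
      have h1 : η ≤ 1 / (2 * At + 2 * m + 1) := hsmall.le
      rw [le_div_iff₀ hden] at h1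
      linarith
    have hmη : (m : ℝ) * (2 * η) ≤ 1 := by nlinarith [mul_nonneg hAt0 hηn]
    have hW : ∀ s, 1 ≤ s → 2 * s ≤ q →
        ‖∑ j : Fin q, pot q x j * (ζ ^ s) ^ (j : ℕ)‖ ≤ Real.sqrt (At * (‖c‖ + η ^ 3)) := by
      intro s hs1 hs2
      apply Real.le_sqrt_of_sq_le
      refine (hA s hs1 hs2 c x η hηn hmη hxi hfib).trans ?_
      exact mul_le_mul_of_nonneg_right (hAle s (by omega)) (by positivity)
    have hV := inv_bound hq3 hζ (pot q x) (hrev x) _ hW
    have hηB : η ≤ Real.sqrt (At * (‖c‖ + η ^ 3)) := by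
      rw [hη, pi_norm_le_iff_of_nonneg (Real.sqrt_nonneg _)]
      intro i
      have h1 := hV ⟨i, by have := i.2; omega⟩
      rw [pot_at q h2m x i _ rfl] at h1
      exact h1
    have hη2 : η ^ 2 ≤ At * (‖c‖ + η ^ 3) := by
      have h1 := pow_le_pow_left₀ hηn hηB 2
      rwa [Real.sq_sqrt (by positivity)] at h1
    have hAη : At * η ≤ 1 / 2 := by nlinarith [mul_nonneg (Nat.cast_nonneg (α := ℝ) m) hηn]
    have h3 : At * η ^ 3 ≤ η ^ 2 / 2 := by
      have : At * η ^ 3 = (At * η) * η ^ 2 := by ring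
      rw [this]
      nlinarith [sq_nonneg η]
    have h4 : ‖x i‖ ^ 2 ≤ η ^ 2 := pow_le_pow_left₀ (norm_nonneg _) (hxi i) 2
    nlinarith
  · rw [hpe]
    have : Zx q (pot q (0 : Fin m → ℂ)) = 0 := by
      unfold Zx
      have h1 : (fun j : Fin q => (Polynomial.X : Polynomial ℂ) - Polynomial.C (pot q (0 : Fin m → ℂ) j)) =
          fun _ => Polynomial.X := by
        funext j
        have : pot q (0 : Fin m → ℂ) j = 0 := by simp [pot]
        rw [this]; simp
      rw [h1, sub_self]
    rw [this, Polynomial.coeff_zero]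

end Pool.Agent.Q157.FL
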